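import Pool.Agent.T2H78.SEN.Th2
import Pool.Agent.T2H78.SEN.PackA

/-!
Project SEN: the conjecture fails for `n = 10`, `a = 16/25`.
-/

set_option autoImplicit false

namespace Pool.Agent.T2H78.SEN

open Polynomial

theorem good_of_loc {y : Fin 9 → ℝ} (hb : ∀ j, (y j) ^ 2 ≤ 708025 / 693744) (h : Loc y) : Good y := by
  refine ⟨hb, fun u => ?_⟩
  have := packS 9 (pp y) pp_ne.1 pp_ne.2 h u
  rwa [pp, star_pp] at this

theorem coeff_bound {y : Fin 9 → ℝ} (hb : ∀ j, (y j) ^ 2 ≤ 708025 / 693744) (k : ℕ) :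
    |sc y k| ≤ (10103 / 10000) ^ (9 - k) * (Nat.choose 9 k : ℝ) := by
  have hm : (∏ j, (X + C (y j)) : ℝ[X]).Monic := monic_prod_of_monic _ _ fun j _ => monic_X_add_C (y j)
  have hs : ((∏ j, (X + C (y j)) : ℝ[X]).map (RingHom.id ℝ)).Splits := by
    rw [Polynomial.map_id]
    exact Splits.prod fun j _ => Splits.X_add_C (y j)
  have hr : ∀ z ∈ ((∏ j, (X + C (y j)) : ℝ[X]).map (RingHom.id ℝ)).roots, ‖z‖ ≤ (10103 / 10000 : ℝ) := by
    intro z hz
    rw [Polynomial.map_id] at hz
    have h0 := (mem_roots'.mp hz).2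
    rw [IsRoot.def, eval_prod, Finset.prod_eq_zero_iff] at h0
    obtain ⟨j, _, hj⟩ := h0
    have hz' : z = -y j := by
      simp at hj
      linarith
    rw [hz', norm_neg, Real.norm_eq_abs, abs_le]
    have := hb j
    constructor <;> nlinarith
  have := coeff_le_of_roots_le (f := RingHom.id ℝ) k hm hs hr
  rw [Polynomial.map_id, natDegree_prod] at this
  exact this

theorem not_loc_aux {y : Fin 9 → ℝ} (hb : ∀ j, (y j) ^ 2 ≤ 708025 / 693744) (h : Loc y)
    (h8 : 0 ≤ sc y 8) : False := by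
  have h1 := coeff_bound hb 8
  have h2 := coeff_bound hb 7
  rw [abs_le] at h1 h2
  have e1 : (Nat.choose 9 8 : ℝ) = 9 := by norm_num [Nat.choose]
  have e2 : (Nat.choose 9 7 : ℝ) = 36 := by norm_num [Nat.choose]
  rw [e1] at h1
  rw [e2] at h2
  norm_num at h1 h2
  refine region_all y (good_of_loc hb h) ?_ ?_ ?_ ?_ <;> push_cast <;> linarith

theorem not_loc {y : Fin 9 → ℝ} (hb : ∀ j, (y j) ^ 2 ≤ 708025 / 693744) (h : Loc y) : False := by
  rcases le_total 0 (sc y 8) with h8 | h8
  · exact not_loc_aux hb h h8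
  · refine not_loc_aux (y := fun j => -y j) (fun j => ?_) (loc_neg h) ?_
    · have := hb j
      simpa using this
    · rw [lev_flip y 8 (by norm_num)]
      norm_num
      exact h8

theorem no_circle : ¬ ∃ P, InClass 10 (16 / 25) P ∧
    ∀ ζ : ℂ, P.derivative.eval ζ = 0 → ‖ζ - 16 / 25‖ = 32 / 35 := by
  rintro ⟨P, hP, hc⟩
  obtain ⟨y, hb, c, hc0, hder⟩ := packY P hP hc
  refine not_loc hb fun z hz => hP.2.2 z ?_
  have h1 : P = C (c / 2250) * ((C 25 * X - C 16) * pp y) := by
    have h2 : derivative (P - C (c / 2250) * ((C 25 * X - C 16) * pp y)) = 0 := by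
      refine Polynomial.funext fun w => ?_
      rw [derivative_sub, derivative_C_mul, eval_sub, eval_mul, pp_deriv, hder, eval_C, eval_zero]
      ring
    have h3 := (derivative_eq_zero).mp h2
    obtain ⟨k, hk⟩ := natDegree_eq_zero.mp h3
    have h4 : k = 0 := by
      have h5 := congrArg (eval (16 / 25)) hk
      rw [eval_C, eval_sub, hP.2.1] at h5
      rw [h5]
      simp
      right
      left
      norm_num
    rw [h4, C_0] at hk
    exact (sub_eq_zero.mp hk.symm)
  rw [h1, eval_mul, eval_mul, hz, mul_zero, mul_zero]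

/-- **The disproof.** -/
theorem not_Main : ¬ Main := by
  refine packR 10 (by norm_num) (16 / 25) ?_ (32 / 35) (by norm_num) packA no_circle
  rw [norm_div]
  norm_num

end Pool.Agent.T2H78.SEN
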