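import Pool.Agent.T2H78.SEN.Defs2

/-!
Project SEN: linear and quadratic forms with integer coefficients as lists, and the operations of the
checker, with their meaning.
-/

set_option autoImplicit false

namespace Pool.Agent.T2H78.SEN

open Polynomial

/-- quadratic forms, upper triangular -/
abbrev QF := List (List ℤ)

/-- sum of two lists -/
def ladd : List ℤ → List ℤ → List ℤ
  | [], b => b
  | x :: a, [] => x :: a
  | x :: a, y :: b => (x + y) :: ladd a b

/-- multiple of a list -/
def lsm (c : ℤ) : List ℤ → List ℤ
  | [] => []
  | x :: a => (c * x) :: lsm c a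

/-- `c x + d y` for lists -/
def lco (c d : ℤ) : List ℤ → List ℤ → List ℤ
  | [], b => lsm d b
  | x :: a, [] => (c * x) :: lsm c a
  | x :: a, y :: b => (c * x + d * y) :: lco c d a b

/-- `q + c a²` -/
def addsq (c : ℤ) : List ℤ → QF → QF
  | [], q => q
  | x :: a, [] => ((c * x) * x :: lsm (2 * (c * x)) a) :: addsq c a []
  | x :: a, r :: q => ladd r ((c * x) * x :: lsm (2 * (c * x)) a) :: addsq c a q

/-- `q + c a b` -/
def addpr (c : ℤ) : List ℤ → List ℤ → QF → QF
  | [], _, q => q
  | _ :: _, [], q => q
  | x :: a, y :: b, [] => ((c * x) * y :: lco (c * x) (c * y) b a) :: addpr c a b []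
  | x :: a, y :: b, r :: q => ladd r ((c * x) * y :: lco (c * x) (c * y) b a) :: addpr c a b q

/-- multiply the entries alternately with `a` and `b` -/
def alt (a b : ℤ) : List ℤ → List ℤ
  | [] => []
  | x :: L => (a * x) :: alt b a L

/-- multiply the entries with `k, k+1, …` -/
def midx (k : ℤ) : List ℤ → List ℤ
  | [] => []
  | x :: L => (k * x) :: midx (k + 1) L

/-- complex linear forms -/
abbrev CF := List ℤ × List ℤ

/-- complex multiple of a form whose even entries are imaginary -/
def csm (u : ℤ × ℤ) (P : List ℤ) : CF := (alt (-u.2) u.1 P, alt u.1 u.2 P)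

/-- sum -/
def cadd : List CF → List CF → List CF
  | [], b => b
  | x :: a, [] => x :: a
  | x :: a, y :: b => (ladd x.1 y.1, ladd x.2 y.2) :: cadd a b

/-- the first `n` multiples -/
def tmap (u : ℤ × ℤ) : ℕ → List (List ℤ) → List CF
  | 0, _ => []
  | _ + 1, [] => []
  | n + 1, P :: F => csm u P :: tmap u n F

/-- truncated product of polynomials -/
def tm : ℕ → List (ℤ × ℤ) → List (List ℤ) → List CF
  | 0, _, _ => []
  | _ + 1, [], _ => []
  | n + 1, u :: us, F => cadd (tmap u (n + 1) F) (([], []) :: tm n us F)

/-- `q + c ∑ |f_i|²` -/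
def addnorm (c : ℤ) : List CF → QF → QF
  | [], q => q
  | f :: fs, q => addnorm c fs (addsq c f.1 (addsq c f.2 q))

/-- absolute values -/
def labs : List ℤ → List ℤ
  | [] => []
  | x :: a => (x.natAbs : ℤ) :: labs a

/-- sum of the absolute values -/
def sabs : List ℤ → ℤ
  | [] => 0
  | x :: a => (x.natAbs : ℤ) + sabs a

/-- diagonal dominance of an upper triangular form -/
def dd : List ℤ → QF → Bool
  | _, [] => true
  | _, [] :: _ => false
  | acc, (d :: o) :: q => decide (acc.headD 0 + sabs o + 1 ≤ 2 * d) && dd (ladd acc.tail (labs o)) q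

/-- value of a linear form -/
noncomputable def lev : List ℤ → List ℝ → ℝ
  | [], _ => 0
  | _ :: _, [] => 0
  | x :: a, t :: s => x * t + lev a s

/-- value of a quadratic form -/
noncomputable def qev : QF → List ℝ → ℝ
  | [], _ => 0
  | _ :: _, [] => 0
  | r :: q, t :: s => t * lev r (t :: s) + qev q s

theorem lev_ladd (a b : List ℤ) (s : List ℝ) : lev (ladd a b) s = lev a s + lev b s := by
  induction a generalizing b s with
  | nil => simp [ladd, lev]
  | cons x a ih =>
    cases b with
    | nil => simp [ladd, lev]
    | cons y b =>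
      cases s with
      | nil => simp [ladd, lev]
      | cons t s => simp only [ladd, lev, ih]; push_cast; ring

theorem lev_lsm (c : ℤ) (a : List ℤ) (s : List ℝ) : lev (lsm c a) s = c * lev a s := by
  induction a generalizing s with
  | nil => simp [lsm, lev]
  | cons x a ih =>
    cases s with
    | nil => simp [lsm, lev]
    | cons t s => simp only [lsm, lev, ih]; push_cast; ring

theorem lev_lco (c d : ℤ) (a b : List ℤ) (s : List ℝ) :
    lev (lco c d a b) s = c * lev a s + d * lev b s := by
  induction a generalizing b s with
  | nil => simp [lco, lev, lev_lsm]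
  | cons x a ih =>
    cases b with
    | nil =>
      cases s with
      | nil => simp [lco, lev]
      | cons t s => simp only [lco, lev, lev_lsm]; push_cast; ring
    | cons y b =>
      cases s with
      | nil => simp [lco, lev]
      | cons t s => simp only [lco, lev, ih]; push_cast; ring

theorem qev_addsq (c : ℤ) (a : List ℤ) (q : QF) (s : List ℝ) :
    qev (addsq c a q) s = qev q s + c * (lev a s) ^ 2 := by
  induction a generalizing q s with
  | nil => simp [addsq, lev]
  | cons x a ih =>
    cases q with
    | nil =>
      cases s with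
      | nil => simp [addsq, lev, qev]
      | cons t s => simp only [addsq, lev, qev, ih, lev_lsm]; push_cast; ring
    | cons r q =>
      cases s with
      | nil => simp [addsq, lev, qev]
      | cons t s => simp only [addsq, lev, qev, ih, lev_lsm, lev_ladd]; push_cast; ring

theorem qev_addpr (c : ℤ) (a b : List ℤ) (q : QF) (s : List ℝ) :
    qev (addpr c a b q) s = qev q s + c * (lev a s * lev b s) := by
  induction a generalizing b q s with
  | nil => simp [addpr, lev]
  | cons x a ih =>
    cases b with
    | nil => simp [addpr, lev]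
    | cons y b =>
      cases q with
      | nil =>
        cases s with
        | nil => simp [addpr, lev, qev]
        | cons t s => simp only [addpr, lev, qev, ih, lev_lco]; push_cast; ring
      | cons r q =>
        cases s with
        | nil => simp [addpr, lev, qev]
        | cons t s => simp only [addpr, lev, qev, ih, lev_lco, lev_ladd]; push_cast; ring

theorem lev_alt (a b : ℤ) (L : List ℤ) (s : List ℝ) :
    lev (alt a b L) s = a * lev (alt 1 0 L) s + b * lev (alt 0 1 L) s := by
  induction L generalizing a b s with
  | nil => simp [alt, lev]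
  | cons x L ih =>
    cases s with
    | nil => simp [alt, lev]
    | cons t s =>
      simp only [alt, lev]
      rw [ih b a]
      push_cast
      ring

/-- value of a complex form -/
noncomputable def cev (f : CF) (s : List ℝ) : ℂ := (lev f.1 s : ℂ) + Complex.I * (lev f.2 s : ℂ)

/-- value of a form whose even entries are imaginary -/
noncomputable def cev2 (P : List ℤ) (s : List ℝ) : ℂ :=
  (lev (alt 0 1 P) s : ℂ) + Complex.I * (lev (alt 1 0 P) s : ℂ)

theorem cev_csm (u : ℤ × ℤ) (P : List ℤ) (s : List ℝ) :
    cev (csm u P) s = ((u.1 : ℂ) + Complex.I * (u.2 : ℂ)) * cev2 P s := by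
  unfold cev csm cev2
  rw [lev_alt (-u.2) u.1, lev_alt u.1 u.2]
  push_cast
  linear_combination (-(u.2 : ℂ) * (lev (alt 1 0 P) s : ℂ)) * Complex.I_sq

/-- polynomial with the coefficients given by a list of complex forms -/
noncomputable def pev : List CF → List ℝ → ℂ[X]
  | [], _ => 0
  | f :: fs, s => C (cev f s) + X * pev fs s

/-- polynomial with the coefficients given by a list of forms whose even entries are imaginary -/
noncomputable def pev2 : List (List ℤ) → List ℝ → ℂ[X]
  | [], _ => 0
  | f :: fs, s => C (cev2 f s) + X * pev2 fs s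

/-- polynomial with Gaussian integers as coefficients -/
noncomputable def uev : List (ℤ × ℤ) → ℂ[X]
  | [] => 0
  | u :: us => C ((u.1 : ℂ) + Complex.I * (u.2 : ℂ)) + X * uev us

theorem pev_cadd (a b : List CF) (s : List ℝ) : pev (cadd a b) s = pev a s + pev b s := by
  induction a generalizing b with
  | nil => simp [cadd, pev]
  | cons x a ih =>
    cases b with
    | nil => simp [cadd, pev]
    | cons y b =>
      simp only [cadd, pev, ih]
      have : cev (ladd x.1 y.1, ladd x.2 y.2) s = cev x s + cev y s := by
        simp only [cev, lev_ladd]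
        push_cast
        ring
      rw [this, C_add]
      ring

theorem tmap_coeff (u : ℤ × ℤ) (s : List ℝ) : ∀ (n : ℕ) (F : List (List ℤ)) (i : ℕ), i < n →
    (pev (tmap u n F) s).coeff i = (C ((u.1 : ℂ) + Complex.I * (u.2 : ℂ)) * pev2 F s).coeff i := by
  intro n
  induction n with
  | zero => intro F i hi; omega
  | succ n ih =>
    intro F i hi
    cases F with
    | nil => simp [tmap, pev, pev2]
    | cons P F =>
      cases i with
      | zero => simp [tmap, pev, pev2, cev_csm]
      | succ i =>
        have := ih F i (by omega)
        simp only [tmap, pev, pev2, coeff_add, coeff_C_succ, coeff_X_mul, zero_add, coeff_C_mul] at this ⊢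
        exact this

theorem tm_coeff (F : List (List ℤ)) (s : List ℝ) : ∀ (n : ℕ) (us : List (ℤ × ℤ)) (i : ℕ), i < n →
    (pev (tm n us F) s).coeff i = (uev us * pev2 F s).coeff i := by
  intro n
  induction n with
  | zero => intro us i hi; omega
  | succ n ih =>
    intro us i hi
    cases us with
    | nil => simp [tm, pev, uev]
    | cons u us =>
      simp only [tm, pev_cadd, uev, coeff_add]
      rw [tmap_coeff u s (n + 1) F i hi, add_mul, coeff_add]
      congr 1
      have h0 : cev (([], []) : CF) s = 0 := by simp [cev, lev]
      cases i with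
      | zero => simp [pev, h0, mul_assoc]
      | succ i =>
        have := ih us i (by omega)
        simp only [pev, h0, C_0, zero_add, coeff_X_mul, mul_assoc]
        exact this

theorem cadd_length (a b : List CF) : (cadd a b).length = max a.length b.length := by
  induction a generalizing b with
  | nil => simp [cadd]
  | cons x a ih =>
    cases b with
    | nil => simp [cadd]
    | cons y b => simp only [cadd, List.length_cons, ih]; omega

theorem tmap_length (u : ℤ × ℤ) : ∀ (n : ℕ) (F : List (List ℤ)), (tmap u n F).length ≤ n := by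
  intro n
  induction n with
  | zero => intro F; simp [tmap]
  | succ n ih =>
    intro F
    cases F with
    | nil => simp [tmap]
    | cons P F => simp only [tmap, List.length_cons]; have := ih F; omega

theorem tm_length (F : List (List ℤ)) : ∀ (n : ℕ) (us : List (ℤ × ℤ)), (tm n us F).length ≤ n := by
  intro n
  induction n with
  | zero => intro us; simp [tm]
  | succ n ih =>
    intro us
    cases us with
    | nil => simp [tm]
    | cons u us =>
      simp only [tm, cadd_length, List.length_cons]
      have h1 := tmap_length u (n + 1) F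
      have h2 := ih us
      omega

/-- sum of the squared absolute values -/
noncomputable def nsum : List CF → List ℝ → ℝ
  | [], _ => 0
  | f :: fs, s => ‖cev f s‖ ^ 2 + nsum fs s

theorem norm_cev (f : CF) (s : List ℝ) : ‖cev f s‖ ^ 2 = (lev f.1 s) ^ 2 + (lev f.2 s) ^ 2 := by
  rw [← Complex.normSq_eq_norm_sq, Complex.normSq_apply]
  simp [cev]
  ring

theorem qev_addnorm (c : ℤ) (fs : List CF) (q : QF) (s : List ℝ) :
    qev (addnorm c fs q) s = qev q s + c * nsum fs s := by
  induction fs generalizing q with
  | nil => simp [addnorm, nsum]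
  | cons f fs ih =>
    simp only [addnorm, nsum, ih, qev_addsq, norm_cev]
    ring

theorem E_pev (s : List ℝ) : ∀ (n : ℕ) (fs : List CF), fs.length ≤ n → E n (pev fs s) = nsum fs s := by
  intro n
  induction n with
  | zero =>
    intro fs h
    have : fs = [] := List.length_eq_zero_iff.mp (by omega)
    subst this
    simp [E, nsum]
  | succ n ih =>
    intro fs h
    cases fs with
    | nil => simp [E, nsum, pev]
    | cons f fs =>
      have := ih fs (by simpa using h)
      unfold E at this ⊢
      rw [Finset.sum_range_succ']
      simp only [pev, nsum, coeff_add, coeff_C_succ, zero_add, coeff_X_mul, coeff_C_zero,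
        mul_coeff_zero, coeff_X_zero, zero_mul, add_zero]
      rw [this]
      ring

theorem E_congr (n : ℕ) (f g : ℂ[X]) (h : ∀ i < n, f.coeff i = g.coeff i) : E n f = E n g := by
  unfold E
  refine Finset.sum_congr rfl fun i hi => ?_
  rw [h i (Finset.mem_range.mp hi)]

/-- the Schur-Cohn form -/
theorem qev_sc (c : ℤ) (n : ℕ) (v : List (ℤ × ℤ)) (F : List (List ℤ)) (q : QF) (s : List ℝ) :
    qev (addnorm c (tm n v F) q) s = qev q s + c * E n (pev2 F s * uev v) := by
  rw [qev_addnorm, ← E_pev s n _ (tm_length F n v),
    E_congr n (pev (tm n v F) s) (pev2 F s * uev v) fun i hi => by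
      rw [tm_coeff F s n v i hi, mul_comm]]

theorem lev_dom (o : List ℤ) (s : List ℝ) (t : ℝ) :
    -(sabs o : ℝ) * t ^ 2 - lev (labs o) (s.map (· ^ 2)) ≤ 2 * (t * lev o s) := by
  induction o generalizing s with
  | nil => simp [sabs, labs, lev]
  | cons x o ih =>
    have hx : (x.natAbs : ℝ) = |(x : ℝ)| := by
      rw [Nat.cast_natAbs]; push_cast; rfl
    cases s with
    | nil =>
      have h0 := ih []
      simp only [List.map_nil, lev, mul_zero, sub_zero, sabs, labs] at h0 ⊢
      have h1 : 0 ≤ (sabs o : ℝ) * t ^ 2 ∨ True := Or.inr trivial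
      have h2 : ∀ l : List ℤ, 0 ≤ sabs l := by
        intro l
        induction l with
        | nil => simp [sabs]
        | cons a l ih2 => simp only [sabs]; positivity
      have h3 : (0 : ℝ) ≤ (sabs o : ℝ) := by exact_mod_cast h2 o
      push_cast
      have : 0 ≤ (|(x : ℝ)| + (sabs o : ℝ)) * t ^ 2 := by positivity
      linarith
    | cons r s =>
      have h0 := ih s
      simp only [List.map_cons, lev, sabs, labs] at h0 ⊢
      push_cast
      have h1 : -(|(x : ℝ)| * (t ^ 2 + r ^ 2)) ≤ 2 * (t * (x * r)) := by
        have h2 : |(x : ℝ) * (2 * (t * r))| ≤ |(x : ℝ)| * (t ^ 2 + r ^ 2) := by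
          rw [abs_mul]
          refine mul_le_mul_of_nonneg_left ?_ (abs_nonneg _)
          rw [abs_le]
          constructor <;> nlinarith [sq_nonneg (t + r), sq_nonneg (t - r)]
        have h3 := neg_abs_le ((x : ℝ) * (2 * (t * r)))
        linarith
      nlinarith

theorem dd_sound : ∀ (q : QF) (acc : List ℤ) (s : List ℝ), dd acc q = true → q.length = s.length →
    lev acc (s.map (· ^ 2)) + (s.map (· ^ 2)).sum ≤ 2 * qev q s := by
  intro q
  induction q with
  | nil =>
    intro acc s _ hl
    have : s = [] := List.length_eq_zero_iff.mp (by simpa using hl.symm)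
    subst this
    cases acc <;> simp [qev, lev]
  | cons r q ih =>
    intro acc s hd hl
    cases s with
    | nil => simp at hl
    | cons t s =>
      cases r with
      | nil => simp [dd] at hd
      | cons d o =>
        simp only [dd, Bool.and_eq_true, decide_eq_true_eq] at hd
        obtain ⟨h1, h2⟩ := hd
        have h3 := ih _ s h2 (by simpa using hl)
        rw [lev_ladd] at h3
        have h4 := lev_dom o s t
        have h5 : (acc.headD 0 : ℝ) + (sabs o : ℝ) + 1 ≤ 2 * (d : ℝ) := by exact_mod_cast h1
        have h6 : lev acc ((t :: s).map (· ^ 2)) = (acc.headD 0 : ℝ) * t ^ 2 + lev acc.tail (s.map (· ^ 2)) := by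
          cases acc <;> simp [lev]
        rw [h6]
        simp only [List.map_cons, List.sum_cons, qev, lev]
        have h7 : ((acc.headD 0 : ℝ) + (sabs o : ℝ) + 1) * t ^ 2 ≤ 2 * (d : ℝ) * t ^ 2 :=
          mul_le_mul_of_nonneg_right h5 (sq_nonneg t)
        nlinarith

end Pool.Agent.T2H78.SEN
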