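import Pool.Agent.T2H78.SEN.L00
import Pool.Agent.T2H78.SEN.L01
import Pool.Agent.T2H78.SEN.L02
import Pool.Agent.T2H78.SEN.L03
import Pool.Agent.T2H78.SEN.L04
import Pool.Agent.T2H78.SEN.L05
import Pool.Agent.T2H78.SEN.L06
import Pool.Agent.T2H78.SEN.L07
import Pool.Agent.T2H78.SEN.L08
import Pool.Agent.T2H78.SEN.L09
import Pool.Agent.T2H78.SEN.L10
import Pool.Agent.T2H78.SEN.L11

/-!
Project SEN: the cover.
-/

set_option autoImplicit false

namespace Pool.Agent.T2H78.SEN

theorem region_all : Region 0 40960 (-151552) 151552 :=
  (region_t (0) (region_t (-75776) r0 (region_t (-37888) r1 (region_s (20480) (region_t (-18944) r2 (region_s (10240) (region_t (-9472) r3 (region_s (5120) (region_t (-4736) (region_s (2560) (region_t (-7104) r4 (region_s (1280) (region_t (-5920) r5 (region_s (640) (region_t (-5328) r6 (region_t (-5032) r7 (region_s (320) (region_s (160) (region_t (-4884) (region_t (-4958) r8 r9) (region_s (80) (region_t (-4810) r10 r11) (region_t (-4810) r12 r13))) (region_t (-4884) r14 (region_t (-4810) r15 (region_s (240) r16 r17)))) (region_s (480) (region_t (-4884) r18 r19) r20)))) r21)) r22))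 r23) (region_s (2560) (region_t (-2368) (region_s (1280) (region_t (-3552) (region_s (640) (region_t (-4144) (region_s (320) (region_t (-4440) (region_s (160) (region_t (-4588) (region_s (80) (region_t (-4662) r24 r25) (region_t (-4662) r26 r27)) (region_t (-4514) (region_s (80) r28 r29) r30)) (region_t (-4588) (region_s (240) (region_t (-4662) r31 r32) (region_t (-4662) r33 r34)) (region_t (-4514) r35 r36))) (region_s (160) (region_t (-4292) (region_s (80) r37 r38) r39) (region_t (-4292) (region_s (240) r40 r41) r42))) (region_t (-4440) (region_s (480) (region_t (-4588) (region_t (-4662) r43 r44) (region_s (400) r45 r46)) (region_t (-4588) r47 (region_s (560) r48 r49))) (region_s (480) (region_t (-4292) (region_s (400) r50 r51) r52) (region_t (-4292) r53 r54)))) (region_t (-3848) (region_s (320) r55 r56) r57)) (region_t (-4144) (region_s (960) (region_t (-4440) (region_s (800) (region_t (-4588) r58 r59) r60) (region_s (800) (region_t (-4292) r61 r62) (region_t (-4292) r63 r64))) (region_t (-4440) r65 (region_s (1120) r66 r67))) (region_s (960) (region_t (-3848) (region_s (800) r68 r69) r70) (region_t (-3848)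 (region_s (1120) r71 r72) r73)))) (region_s (640) r74 (region_t (-2960) r75 r76))) (region_t (-3552) (region_s (1920) (region_t (-4144) r77 (region_s (1600) (region_t (-3848) r78 (region_s (1440) r79 r80)) (region_t (-3848) r81 r82))) r83) (region_s (1920) (region_t (-2960) (region_s (1600) r84 (region_t (-3256) r85 r86)) r87) (region_t (-2960) (region_s (2240) (region_t (-3256) r88 r89) r90) (region_s (2240) r91 r92))))) r93) (region_s (3840) (region_t (-2368) r94 r95) r96))) r97)) r98)) r99))) (region_t (75776) (region_t (37888) (region_s (20480) (region_t (18944) (region_s (10240) (region_t (9472) (region_s (5120) (region_t (4736) (region_s (2560) r100 r101) (region_s (2560) r102 r103)) (region_t (4736) r104 r105)) (region_s (5120) r106 r107)) (region_t (9472) r108 r109)) (region_s (10240) r110 (region_t (28416) r111 r112))) r113) r114) r115))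

end Pool.Agent.T2H78.SEN
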