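import Mathlib

/-!
Project SEN (MP_951270_an, frozen statement S05456, disproof): statements of the packages.
n = 10, a = 16/25, d0 = 32/35. Owner helper78.
-/

set_option autoImplicit false

namespace Pool.Agent.T2H78.SEN

open Polynomial

/-- the class `P_n(a)` -/
def InClass (n : ℕ) (a : ℂ) (P : ℂ[X]) : Prop :=
  P.natDegree = n ∧ P.eval a = 0 ∧ ∀ z : ℂ, P.eval z = 0 → ‖z‖ ≤ 1

/-- the statement `S05455` -/
def Main : Prop :=
    ∀ n : ℕ, 2 ≤ n → ∀ a : ℂ, ∀ P : Polynomial ℂ, ∀ d : ℝ,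
      P.natDegree = n → P.eval a = 0 → (∀ z : ℂ, P.eval z = 0 → ‖z‖ ≤ 1) →
      (∃ ζ : ℂ, P.derivative.eval ζ = 0 ∧ ‖ζ - a‖ = d) →
      (∀ ζ : ℂ, P.derivative.eval ζ = 0 → d ≤ ‖ζ - a‖) →
      (∀ Q : Polynomial ℂ, Q.natDegree = n → Q.eval a = 0 →
        (∀ z : ℂ, Q.eval z = 0 → ‖z‖ ≤ 1) →
        ∃ ξ : ℂ, Q.derivative.eval ξ = 0 ∧ ‖ξ - a‖ ≤ d) →
      ∀ ζ : ℂ, P.derivative.eval ζ = 0 → ‖ζ - a‖ = d

/-- **Package R** (existence of extremal polynomials and scaling).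
Proof. Let `D` be the set of `d ≥ 0` such that some `P ∈ P_n(a)` has `d ≤ |ζ - a|` for all critical
points `ζ`; `d0 ∈ D` by `hA`; `D` is bounded (a critical point lies in the unit disc by Gauss-Lucas,
or: `P' ` has a root `ζ`, and its distance to `a` is at most `2`; `Polynomial.rootSet_derivative_subset_convexHull_rootSet`).
`D` contains its supremum `d`: monic `P_k = (X - a) ∏_{j < n-1} (X - z_{k,j})`, `|z_{k,j}| ≤ 1` with
`d_k → d`; a subsequence of `z_k` converges (compactness of the closed polydisc `Fin (n-1) → ℂ`) to `z`,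
`P = (X - a) ∏ (X - z_j)`; if `|ζ - a| < d` then `|P_k'(ζ)| = n ∏ |ζ - ζ_{k,j}| ≥ n (d_k - |ζ - a|)^(n-1)`
(for `d_k > |ζ - a|`), so `|P'(ζ)| ≥ n (d - |ζ - a|)^(n-1) > 0`. (Equivalently: for each `d` the set of all
`z` in the closed polydisc such that `∀ ζ, |ζ-a| < d → n (d - |ζ-a|)^(n-1) ≤ |P_z'(ζ)|` is closed, hence
compact; these sets decrease with `d`.) So `P` has all critical points at distance `≥ d`, and one at
distance exactly `d` (otherwise the minimal distance, which is attained since there are finitely many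
critical points, would be a larger element of `D`). For every `Q ∈ P_n(a)` some critical point has distance
`≤ d` for the same reason. If `Main` holds then all critical points of `P` have distance exactly `d ≥ d0`.
Let `t = d0 / d ≤ 1` and `P_t(z) = P(a + (z - a)/t)`: zeros `a + t (z_j - a)` lie in the unit disc by
convexity (`‖a‖ ≤ 1`), critical points have distance exactly `d0`: contradiction to `hC`. -/
def PackR : Prop := ∀ (n : ℕ) (_ : 2 ≤ n) (a : ℂ) (_ : ‖a‖ ≤ 1) (d0 : ℝ) (_ : 0 < d0)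
  (_ : ∃ P, InClass n a P ∧ ∀ ζ : ℂ, P.derivative.eval ζ = 0 → d0 ≤ ‖ζ - a‖)
  (_ : ¬ ∃ P, InClass n a P ∧ ∀ ζ : ℂ, P.derivative.eval ζ = 0 → ‖ζ - a‖ = d0), ¬ Main

/-- **Package Y** (Cayley coordinates).
Proof. `P'` has degree 9 and splits: `P' = c ∏_{j<9} (X - ζ_j)`, `c ≠ 0` (index the multiset of roots by
`Fin 9`). Each `ζ = ζ_j` satisfies `|ζ - 16/25| = 32/35` and `|ζ| ≤ 1` (Gauss-Lucas,
`Polynomial.rootSet_derivative_subset_convexHull_rootSet`, all zeros of `P` are in the closed unit disc, which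
is convex). Put `ω = (ζ - 16/25) / (32/35)`, `|ω| = 1`. From `|ζ|² ≤ 1`: `Re ω ≤ -7519/35840`, so `ω ≠ 1`.
Put `y = Re (i (875 ζ + 240) / (1088 - 700 ζ))`; as `875 ζ + 240 = 800 (1 + ω)`, `1088 - 700 ζ = 640 (1 - ω)`, the
number `i (1 + ω)/(1 - ω)` is real, `y = (5/4) i (1+ω)/(1-ω)`, `y² = (25/16) (1 + Re ω)/(1 - Re ω) ≤ 708025/693744`.
Then `(875 z + 240) + y i (1088 - 700 z) = (875 - 700 i y) (z - ζ)` and `875 - 700 i y ≠ 0`; take
`c' = c / ∏ (875 - 700 i y_j)`. -/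
def PackY : Prop := ∀ P : ℂ[X], InClass 10 (16 / 25) P →
  (∀ ζ : ℂ, P.derivative.eval ζ = 0 → ‖ζ - 16 / 25‖ = 32 / 35) →
  ∃ y : Fin 9 → ℝ, (∀ j, (y j) ^ 2 ≤ 708025 / 693744) ∧ ∃ c : ℂ, c ≠ 0 ∧
    ∀ z : ℂ, P.derivative.eval z =
      c * ∏ j, ((875 * z + 240) + (y j : ℂ) * (Complex.I * (1088 - 700 * z)))

/-- `∑_{i < n} |g_i|²` -/
noncomputable def E (n : ℕ) (g : ℂ[X]) : ℝ := ∑ i ∈ Finset.range n, ‖g.coeff i‖ ^ 2

/-- the conjugate reciprocal polynomial: coefficient `i` is `conj (p_{n-i})`, `i ≤ n` -/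
noncomputable def star (n : ℕ) (p : ℂ[X]) : ℂ[X] :=
  ∑ i ∈ Finset.range (n + 1), Polynomial.C ((starRingEnd ℂ) (p.coeff (n - i))) * X ^ i

/-- **Package S** (Schur-Cohn inequality).
Proof. (1) For `|z| ≤ 1` and every `g`: `E n ((X - C z) * g) ≤ E n ((1 - C (conj z) * X) * g)`, since
`|g_i - conj z g_{i-1}|² - |g_{i-1} - z g_i|² = (1 - |z|²) (|g_i|² - |g_{i-1}|²)` (with `g_{-1} = 0`), and the sum over
`i < n` telescopes to `(1 - |z|²) |g_{n-1}|² ≥ 0`. (2) Induction over the multiset of roots `z_k`, for all `u`: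
`E n (∏ (X - z_k) * u) ≤ E n (∏ (1 - conj z_k X) * u)`: apply (1) to one root and the induction hypothesis to
`u' = (1 - conj z X) * u`. (3) `p = C c ∏ (X - z_k)` with exactly `n` roots, `star n p = C (conj c) ∏ (1 - conj z_k X)`
(e.g. by `Polynomial.reverse_mul_of_domain` and `Polynomial.map (starRingEnd ℂ)`, or compare coefficients by
induction; or `Polynomial.reflect`). -/
def PackS : Prop := ∀ (n : ℕ) (p : ℂ[X]), p.natDegree = n → p ≠ 0 → (∀ z : ℂ, p.eval z = 0 → ‖z‖ ≤ 1) →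
  ∀ u : ℂ[X], E n (p * u) ≤ E n (star n p * u)

end Pool.Agent.T2H78.SEN
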