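import Pool.Agent.T2H78.SEN.Defs

/-!
Project SEN, second round of packages.
-/

set_option autoImplicit false

namespace Pool.Agent.T2H78.SEN

open Polynomial

/-- **Package B** (Bezout form; checked numerically).
Let `S = ∏ (X + y_j)`, `K_j = ∏_{i ≠ j} (X + y_i)`, coefficients `s m`, `k_j m` for `m ∈ ℤ` (zero for negative `m`
and beyond the degree), `d m = (m + 1) s (m + 1)`, `A f t = ∑_{j < 9} u_j f (j + t)`.
Proof. `s m = k_j (m-1) + y_j k_j m`, so (1) `A s t = A k_j (t-1) + y_j A k_j t`; `S' = ∑ K_j`, so (2) `A d t = ∑_j A k_j t`.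
Let `k = k_j`. By (1): `A k (-l) * A s (l+1) - A s (-l) * A k (l+1) = A k (-l) A k l - A k (-l-1) A k (l+1)`; the sum over
`l < 9` telescopes to `(A k 0)²` since `A k 9 = 0` (`k m = 0` for `m ≥ 9`). In the same way
`∑_{l<9} (A k (-1-l) * A s l - A s (-1-l) * A k l) = (A k (-1))²`. Sum over `j` with (2):
`∑_j (A k_j 0)² = ∑_l (A d (-l) A s (l+1) - A s (-l) A d (l+1))`,
`∑_j (A k_j (-1))² = ∑_l (A d (-1-l) A s l - A s (-1-l) A d l)`.
By (1) with `t = 0`, `y_j A k_j 0 = A s 0 - A k_j (-1)`, so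
`∑_j y_j² (A k_j 0)² = 9 (A s 0)² - 2 A s 0 A d (-1) + ∑_j (A k_j (-1))²`. The expression in the statement is
`∑_j (κ - y_j²) (A k_j 0)² ≥ 0` (shift `l` by one in the second sum, the terms with `l + 2 = 10, 11` vanish). -/
def PackB : Prop := ∀ (y : Fin 9 → ℝ) (κ : ℝ), (∀ j, (y j) ^ 2 ≤ κ) → ∀ (u : ℕ → ℝ) (s d : ℤ → ℝ)
  (A : (ℤ → ℝ) → ℤ → ℝ),
  (∀ m, s m = if 0 ≤ m then (∏ j, (X + C (y j)) : ℝ[X]).coeff m.toNat else 0) →
  (∀ m, d m = (m + 1) * s (m + 1)) →
  (∀ f t, A f t = ∑ j ∈ Finset.range 9, u j * f (j + t)) →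
  0 ≤ ∑ l ∈ Finset.range 9, (A s (l + 1) * (κ * A d (-l) - A d (-l - 2))
      - A d (l + 1) * (κ * A s (-l) - A s (-l - 2)))
    - 9 * (A s 0) ^ 2 + A s 0 * A d (-1) + A s (-1) * A d 0

/-- **Package A** (the explicit polynomial).
`P = (X - 16/25) q₁² q₂ q₃ (X + 1)`, `q₁ = X² - 2 c₁ X + 1`, `q₂ = X² - 2 c₂ X + m₂`, `q₃ = X² - 2 c₃ X + 1`,
`c₁ = 4477676/10^7`, `c₂ = -3454854/10^7`, `m₂ = 9815261/10^7`, `c₃ = -8185275/10^7`.
(1) A root of `X² - 2 c X + m` with `c² < m ≤ 1` has `|z|² = m` (real and imaginary part of the equation).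
(2) `P' = q₁ g`, `g = q₁ r' + 2 q₁' r`, `r = (X - 16/25) q₂ q₃ (X + 1)`, degree 7, real. For the roots of `q₁`:
`|z - a|² = 1 - 2 a c₁ + a² ≥ (32/35)²`. (3) `h(w) = g(16/25 + 32 w/35)` must have no root with `|w| < 1`
(numerically the nearest root of `g` is at distance `0.91456 > 32/35 = 0.9142857`). Schur-Cohn: for real
`h_0, …, h_7` let `Q(x) = ∑_{i<7} ((∑_{l ≤ i} h_{i-l} x_l)² - (∑_{l≤i} h_{7-i+l} x_l)²)`, a quadratic form in
`x_0, …, x_6`. With `x_l + i y_l = w^(6-l)` one has the identity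
`(1 - |w|²) (Q(x) + Q(y)) = |h(w)|² - |h*(w)|²`, `h*(w) = ∑ h_{7-i} w^i` (check: as polynomials in `w` and
`u = conj w`, `(1 - w u) ∑_{i<7} (w u)^(6-i) (H_i(w) H_i(u) - H*_i(w) H*_i(u)) = h(w) h(u) - h*(w) h*(u)` where `H_i` is the
partial sum `∑_{m ≤ i} h_m w^m`; by `ring`, or in general by Abel summation). So if `Q` is positive definite
then `h` has no root with `|w| < 1`. (4) Positive definiteness of the explicit `7 × 7` integer matrix:
exact LDL, or an approximate Cholesky factor `L` (exact integers, computed with high precision) such that the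
matrix minus `L Lᵀ` is diagonally dominant; kernel evaluation by `decide +kernel` on lists of integers is fine
(the file `Chk.lean` has such list operations), or `norm_num`/`nlinarith` with the explicit squares. The roots
of `g` form a cluster of seven near `-0.25`, so the smallest eigenvalue is small (use exact arithmetic). -/
def PackA : Prop := ∃ P : ℂ[X], InClass 10 (16 / 25) P ∧
  ∀ ζ : ℂ, P.derivative.eval ζ = 0 → 32 / 35 ≤ ‖ζ - 16 / 25‖

end Pool.Agent.T2H78.SEN
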