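import Pool.Agent.T2H78.SEN.Defs2

/-!
Project SEN, package B: the Bezout form inequality.
-/

set_option autoImplicit false

namespace Pool.Agent.T2H78.SEN

open Polynomial

/-- the coefficients of `K_j = ∏_{i ≠ j} (X + y_i)` -/
noncomputable def bK (y : Fin 9 → ℝ) (j : Fin 9) (m : ℤ) : ℝ :=
  if 0 ≤ m then (∏ i ∈ Finset.univ.erase j, (X + C (y i)) : ℝ[X]).coeff m.toNat else 0

theorem bK_neg (y : Fin 9 → ℝ) (j : Fin 9) (m : ℤ) (hm : m < 0) : bK y j m = 0 := by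
  unfold bK
  rw [if_neg (by lia)]

theorem bK_big (y : Fin 9 → ℝ) (j : Fin 9) (m : ℤ) (hm : 9 ≤ m) : bK y j m = 0 := by
  unfold bK
  rw [if_pos (by lia)]
  apply coeff_eq_zero_of_natDegree_lt
  have h1 : (∏ i ∈ Finset.univ.erase j, (X + C (y i)) : ℝ[X]).natDegree ≤
      ∑ i ∈ Finset.univ.erase j, (X + C (y i) : ℝ[X]).natDegree := natDegree_prod_le _ _
  simp only [natDegree_X_add_C] at h1
  have h2 : ∑ i ∈ Finset.univ.erase j, 1 = 8 := by
    rw [Finset.sum_const, Finset.card_erase_of_mem (Finset.mem_univ j)]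
    simp
  rw [h2] at h1
  lia

theorem packB : PackB := by
  intro y κ hκ u s d A hs hd hA
  have hs1 : ∀ (j : Fin 9) (m : ℤ), s m = bK y j (m - 1) + y j * bK y j m := by
    intro j m
    rw [hs m]
    rcases lt_trichotomy m 0 with h | h | h
    · rw [if_neg (by lia), bK_neg y j _ (by lia), bK_neg y j _ h]
      ring
    · subst h
      rw [if_pos le_rfl, bK_neg y j _ (by lia)]
      unfold bK
      rw [if_pos le_rfl, ← Finset.mul_prod_erase _ _ (Finset.mem_univ j)]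
      simp [mul_coeff_zero]
    · obtain ⟨n, rfl⟩ : ∃ n : ℕ, m = n + 1 := ⟨(m - 1).toNat, by lia⟩
      unfold bK
      rw [if_pos (by lia), if_pos (by lia), if_pos (by lia),
        ← Finset.mul_prod_erase _ _ (Finset.mem_univ j)]
      have e1 : ((n : ℤ) + 1).toNat = n + 1 := by lia
      have e2 : ((n : ℤ) + 1 - 1).toNat = n := by lia
      rw [e1, e2, add_mul, coeff_add, coeff_X_mul, coeff_C_mul]
  have hd1 : ∀ m : ℤ, d m = ∑ j : Fin 9, bK y j m := by
    intro m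
    rw [hd m]
    rcases lt_or_ge m 0 with h | h
    · rw [Finset.sum_eq_zero (fun j _ => bK_neg y j m h)]
      rcases lt_or_eq_of_le (show m + 1 ≤ 0 by lia) with h' | h'
      · rw [hs, if_neg (by lia), mul_zero]
      · have : ((m : ℝ) + 1) = 0 := by exact_mod_cast h'
        rw [this, zero_mul]
    · obtain ⟨n, rfl⟩ : ∃ n : ℕ, m = n := ⟨m.toNat, by lia⟩
      rw [hs, if_pos (by lia)]
      have e1 : ((n : ℤ) + 1).toNat = n + 1 := by lia
      rw [e1]
      have e2 := coeff_derivative (∏ j, (X + C (y j)) : ℝ[X]) n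
      rw [derivative_prod_finset, finsetSum_coeff] at e2
      have e3 : ∀ j : Fin 9, bK y j n =
          ((∏ i ∈ Finset.univ.erase j, (X + C (y i))) * derivative (X + C (y j)) : ℝ[X]).coeff n := by
        intro j
        unfold bK
        rw [if_pos (by lia)]
        simp
      rw [Finset.sum_congr rfl fun j _ => e3 j, e2]
      push_cast
      ring
  have hA1 : ∀ (j : Fin 9) (t : ℤ), A s t = A (bK y j) (t - 1) + y j * A (bK y j) t := by
    intro j t
    rw [hA, hA, hA, Finset.mul_sum, ← Finset.sum_add_distrib]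
    refine Finset.sum_congr rfl fun i _ => ?_
    rw [hs1 j]
    have : (i : ℤ) + t - 1 = i + (t - 1) := by ring
    rw [this]
    ring
  have hA2 : ∀ t : ℤ, A d t = ∑ j : Fin 9, A (bK y j) t := by
    intro t
    simp only [hA]
    rw [Finset.sum_comm]
    refine Finset.sum_congr rfl fun i _ => ?_
    rw [hd1, Finset.mul_sum]
  have hneg : ∀ (j : Fin 9) (t : ℤ), t ≤ -9 → A (bK y j) t = 0 := by
    intro j t ht
    rw [hA]
    refine Finset.sum_eq_zero fun i hi => ?_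
    rw [bK_neg _ _ _ (by have := Finset.mem_range.1 hi; lia), mul_zero]
  have hbig : ∀ (j : Fin 9) (t : ℤ), 9 ≤ t → A (bK y j) t = 0 := by
    intro j t ht
    rw [hA]
    refine Finset.sum_eq_zero fun i hi => ?_
    rw [bK_big _ _ _ (by lia), mul_zero]
  have T1 : ∀ j : Fin 9, ∑ l ∈ Finset.range 9, (A (bK y j) (-(l : ℤ)) * A s (l + 1) -
      A s (-(l : ℤ)) * A (bK y j) (l + 1)) = (A (bK y j) 0) ^ 2 := by
    intro j
    have e : ∀ l ∈ Finset.range 9, (A (bK y j) (-(l : ℤ)) * A s (l + 1) -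
        A s (-(l : ℤ)) * A (bK y j) (l + 1)) =
        A (bK y j) (-(l : ℤ)) * A (bK y j) l -
          A (bK y j) (-((l + 1 : ℕ) : ℤ)) * A (bK y j) ((l + 1 : ℕ) : ℤ) := by
      intro l _
      rw [hA1 j (l + 1), hA1 j (-(l : ℤ))]
      have e1 : (l : ℤ) + 1 - 1 = l := by ring
      have e2 : -(l : ℤ) - 1 = -((l + 1 : ℕ) : ℤ) := by push_cast; ring
      rw [e1, e2]
      push_cast
      ring
    rw [Finset.sum_congr rfl e,
      Finset.sum_range_sub' (fun l : ℕ => A (bK y j) (-(l : ℤ)) * A (bK y j) l)]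
    rw [hbig j ((9 : ℕ) : ℤ) (by norm_num)]
    simp only [Nat.cast_zero, neg_zero]
    ring
  have T2 : ∀ j : Fin 9, ∑ l ∈ Finset.range 9, (A (bK y j) (-1 - (l : ℤ)) * A s l -
      A s (-1 - (l : ℤ)) * A (bK y j) l) = (A (bK y j) (-1)) ^ 2 := by
    intro j
    have e : ∀ l ∈ Finset.range 9, (A (bK y j) (-1 - (l : ℤ)) * A s l -
        A s (-1 - (l : ℤ)) * A (bK y j) l) =
        A (bK y j) (-1 - (l : ℤ)) * A (bK y j) (l - 1) -
          A (bK y j) (-1 - ((l + 1 : ℕ) : ℤ)) * A (bK y j) (((l + 1 : ℕ) : ℤ) - 1) := by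
      intro l _
      rw [hA1 j (l : ℤ), hA1 j (-1 - (l : ℤ))]
      have e1 : ((l + 1 : ℕ) : ℤ) - 1 = l := by push_cast; ring
      have e2 : -1 - (l : ℤ) - 1 = -1 - ((l + 1 : ℕ) : ℤ) := by push_cast; ring
      rw [e1, e2]
      ring
    rw [Finset.sum_congr rfl e,
      Finset.sum_range_sub' (fun l : ℕ => A (bK y j) (-1 - (l : ℤ)) * A (bK y j) (l - 1))]
    rw [hneg j (-1 - ((9 : ℕ) : ℤ)) (by norm_num)]
    simp only [Nat.cast_zero, sub_zero, zero_sub, zero_mul]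
    ring
  -- sums over `j`
  have S1 : ∑ l ∈ Finset.range 9, (A d (-(l : ℤ)) * A s (l + 1) -
      A s (-(l : ℤ)) * A d (l + 1)) = ∑ j : Fin 9, (A (bK y j) 0) ^ 2 := by
    rw [← Finset.sum_congr rfl fun j _ => T1 j, Finset.sum_comm]
    refine Finset.sum_congr rfl fun l _ => ?_
    rw [hA2, hA2, Finset.sum_mul, Finset.mul_sum, Finset.sum_sub_distrib]
  have S2 : ∑ l ∈ Finset.range 9, (A d (-1 - (l : ℤ)) * A s l -
      A s (-1 - (l : ℤ)) * A d l) = ∑ j : Fin 9, (A (bK y j) (-1)) ^ 2 := by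
    rw [← Finset.sum_congr rfl fun j _ => T2 j, Finset.sum_comm]
    refine Finset.sum_congr rfl fun l _ => ?_
    rw [hA2, hA2, Finset.sum_mul, Finset.mul_sum, Finset.sum_sub_distrib]
  have S3 : ∑ l ∈ Finset.range 9, (A s (l + 1) * A d (-l - 2) - A d (l + 1) * A s (-l - 2)) =
      ∑ j : Fin 9, (A (bK y j) (-1)) ^ 2 - (A d (-1) * A s 0 - A s (-1) * A d 0) := by
    rw [← S2]
    have e : ∀ l ∈ Finset.range 9, (A s ((l : ℤ) + 1) * A d (-(l : ℤ) - 2) -
        A d ((l : ℤ) + 1) * A s (-(l : ℤ) - 2)) =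
        (fun l : ℕ => A d (-1 - (l : ℤ)) * A s l - A s (-1 - (l : ℤ)) * A d l) (l + 1) := by
      intro l _
      have e2 : -(l : ℤ) - 2 = -1 - ((l + 1 : ℕ) : ℤ) := by push_cast; ring
      show _ = A d (-1 - ((l + 1 : ℕ) : ℤ)) * A s ((l + 1 : ℕ) : ℤ) -
        A s (-1 - ((l + 1 : ℕ) : ℤ)) * A d ((l + 1 : ℕ) : ℤ)
      rw [e2]
      push_cast
      ring
    rw [Finset.sum_congr rfl e]
    have e9 := Finset.sum_range_succ'
      (fun l : ℕ => A d (-1 - (l : ℤ)) * A s l - A s (-1 - (l : ℤ)) * A d l) 9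
    have e10 := Finset.sum_range_succ
      (fun l : ℕ => A d (-1 - (l : ℤ)) * A s l - A s (-1 - (l : ℤ)) * A d l) 9
    have z1 : A d (-1 - ((9 : ℕ) : ℤ)) = 0 := by
      rw [hA2]
      exact Finset.sum_eq_zero fun j _ => hneg j _ (by norm_num)
    have z2 : A d ((9 : ℕ) : ℤ) = 0 := by
      rw [hA2]
      exact Finset.sum_eq_zero fun j _ => hbig j _ (by norm_num)
    simp only [z1, z2, mul_zero, zero_mul, sub_zero, add_zero, Nat.cast_zero] at e9 e10
    linarith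
  have S4 : ∑ j : Fin 9, (y j) ^ 2 * (A (bK y j) 0) ^ 2 =
      9 * (A s 0) ^ 2 - 2 * A s 0 * A d (-1) + ∑ j : Fin 9, (A (bK y j) (-1)) ^ 2 := by
    have e : ∀ j ∈ (Finset.univ : Finset (Fin 9)), (y j) ^ 2 * (A (bK y j) 0) ^ 2 =
        (A s 0) ^ 2 - 2 * A s 0 * A (bK y j) (-1) + (A (bK y j) (-1)) ^ 2 := by
      intro j _
      have h := hA1 j 0
      rw [zero_sub] at h
      have h' : y j * A (bK y j) 0 = A s 0 - A (bK y j) (-1) := by linarith
      calc (y j) ^ 2 * (A (bK y j) 0) ^ 2 = (y j * A (bK y j) 0) ^ 2 := by ring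
        _ = _ := by rw [h']; ring
    rw [Finset.sum_congr rfl e, Finset.sum_add_distrib, Finset.sum_sub_distrib, ← Finset.mul_sum,
      ← hA2]
    simp
  have key : ∑ l ∈ Finset.range 9, (A s (l + 1) * (κ * A d (-l) - A d (-l - 2))
      - A d (l + 1) * (κ * A s (-l) - A s (-l - 2)))
    - 9 * (A s 0) ^ 2 + A s 0 * A d (-1) + A s (-1) * A d 0 =
      ∑ j : Fin 9, (κ - (y j) ^ 2) * (A (bK y j) 0) ^ 2 := by
    have e : ∑ l ∈ Finset.range 9, (A s ((l : ℤ) + 1) * (κ * A d (-(l : ℤ)) - A d (-(l : ℤ) - 2))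
        - A d ((l : ℤ) + 1) * (κ * A s (-(l : ℤ)) - A s (-(l : ℤ) - 2))) =
        κ * ∑ l ∈ Finset.range 9, (A d (-(l : ℤ)) * A s (l + 1) -
          A s (-(l : ℤ)) * A d (l + 1)) -
        ∑ l ∈ Finset.range 9, (A s ((l : ℤ) + 1) * A d (-(l : ℤ) - 2) -
          A d ((l : ℤ) + 1) * A s (-(l : ℤ) - 2)) := by
      rw [Finset.mul_sum, ← Finset.sum_sub_distrib]
      refine Finset.sum_congr rfl fun l _ => ?_
      ring
    have e' : ∑ j : Fin 9, (κ - (y j) ^ 2) * (A (bK y j) 0) ^ 2 =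
        κ * ∑ j : Fin 9, (A (bK y j) 0) ^ 2 - ∑ j : Fin 9, (y j) ^ 2 * (A (bK y j) 0) ^ 2 := by
      rw [Finset.mul_sum, ← Finset.sum_sub_distrib]
      refine Finset.sum_congr rfl fun l _ => ?_
      ring
    rw [e, e', S1, S3, S4]
    ring
  rw [key]
  exact Finset.sum_nonneg fun j _ => mul_nonneg (sub_nonneg.2 (hκ j)) (sq_nonneg _)

end Pool.Agent.T2H78.SEN
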