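import Pool.Agent.T2H78.SEN.Defs

/-!
Package R of project SEN (MP_951270_an): existence of extremal polynomials and scaling.
-/

set_option autoImplicit false

namespace Pool.Agent.T2H78.SEN

open Polynomial

namespace PR

theorem exists_map (s : Multiset ℂ) (m : ℕ) (h : Multiset.card s = m) :
    ∃ w : Fin m → ℂ, s = Finset.univ.val.map w := by
  subst h
  refine ⟨fun i => s.toList.get (Fin.cast (by simp) i), ?_⟩
  have h1 : (s.toList : Multiset ℂ) = s := s.coe_toList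
  rw [Fin.univ_val_map]
  conv_lhs => rw [← h1]
  rw [Multiset.coe_eq_coe]
  apply List.Perm.of_eq
  apply List.ext_getElem
  · simp
  · intro i h1 h2
    simp

/-- splitting over the complex numbers, the roots indexed by `Fin m` -/
theorem exists_prod (p : ℂ[X]) (m : ℕ) (h : p.natDegree = m) :
    ∃ w : Fin m → ℂ, p = C p.leadingCoeff * ∏ j, (X - C (w j)) := by
  have hs : p.Splits := IsAlgClosed.splits p
  obtain ⟨w, hw⟩ := exists_map p.roots m (by rw [← h]; exact hs.natDegree_eq_card_roots.symm)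
  refine ⟨w, ?_⟩
  conv_lhs => rw [hs.eq_prod_roots, hw]
  rw [Multiset.map_map]
  rfl

/-- monic polynomial with root `a` and the roots `z j` -/
noncomputable def pz {m : ℕ} (a : ℂ) (z : Fin m → ℂ) : ℂ[X] := (X - C a) * ∏ j, (X - C (z j))

theorem pz_monic {m : ℕ} (a : ℂ) (z : Fin m → ℂ) : (pz a z).Monic :=
  (monic_X_sub_C a).mul (monic_prod_of_monic _ _ fun j _ => monic_X_sub_C (z j))

theorem pz_natDegree {m : ℕ} (a : ℂ) (z : Fin m → ℂ) : (pz a z).natDegree = m + 1 := by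
  unfold pz
  rw [Monic.natDegree_mul (monic_X_sub_C a) (monic_prod_of_monic _ _ fun j _ => monic_X_sub_C (z j)),
    natDegree_X_sub_C, natDegree_prod_of_monic _ _ fun j _ => monic_X_sub_C (z j)]
  simp [add_comm]

theorem pz_eval {m : ℕ} (a : ℂ) (z : Fin m → ℂ) (x : ℂ) :
    (pz a z).eval x = (x - a) * ∏ j, (x - z j) := by
  simp [pz, eval_prod]

theorem pz_cont {m : ℕ} (a x : ℂ) :
    Continuous fun z : Fin m → ℂ => (derivative (pz a z)).eval x := by
  have h : (fun z : Fin m → ℂ => (derivative (pz a z)).eval x) = fun z =>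
      ∏ j, (x - z j) + (x - a) * ∑ i, ∏ j ∈ Finset.univ.erase i, (x - z j) := by
    funext z
    rw [pz, derivative_mul, derivative_prod_finset, derivative_X_sub_C, one_mul, eval_add, eval_mul,
      eval_prod, eval_finsetSum]
    simp [eval_prod]
  rw [h]
  fun_prop

theorem pz_inClass {m : ℕ} (a : ℂ) (ha : ‖a‖ ≤ 1) (z : Fin m → ℂ) (hz : ∀ j, ‖z j‖ ≤ 1) :
    InClass (m + 1) a (pz a z) := by
  refine ⟨pz_natDegree a z, by rw [pz_eval, sub_self, zero_mul], fun x hx => ?_⟩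
  rw [pz_eval, mul_eq_zero, Finset.prod_eq_zero_iff] at hx
  rcases hx with hx | ⟨j, -, hj⟩
  · rw [sub_eq_zero.1 hx]
    exact ha
  · rw [sub_eq_zero.1 hj]
    exact hz j

theorem rep {m : ℕ} {a : ℂ} {Q : ℂ[X]} (hQ : InClass (m + 1) a Q) :
    ∃ (c : ℂ) (z w : Fin m → ℂ), c ≠ 0 ∧ Q = C c * pz a z ∧ (∀ j, ‖z j‖ ≤ 1) ∧
      (∀ j, ‖w j‖ ≤ 1) ∧
      ∀ x, (derivative (pz a z)).eval x = (m + 1 : ℂ) * ∏ j, (x - w j) := by
  obtain ⟨hn, ha, hr⟩ := hQ
  have hQ0 : Q ≠ 0 := by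
    rintro rfl
    rw [natDegree_zero] at hn
    omega
  obtain ⟨Q1, hQ1⟩ := dvd_iff_isRoot.2 ha
  have hQ10 : Q1 ≠ 0 := by
    rintro rfl
    rw [mul_zero] at hQ1
    exact hQ0 hQ1
  have hd1 : Q1.natDegree = m := by
    rw [hQ1, natDegree_mul (X_sub_C_ne_zero a) hQ10, natDegree_X_sub_C] at hn
    omega
  obtain ⟨z, hz⟩ := exists_prod Q1 m hd1
  have hc : Q1.leadingCoeff ≠ 0 := leadingCoeff_ne_zero.2 hQ10
  have hQz : Q = C Q1.leadingCoeff * pz a z := by
    conv_lhs => rw [hQ1, hz]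
    unfold pz
    ring
  have hz1 : ∀ j, ‖z j‖ ≤ 1 := by
    intro j
    apply hr
    rw [hQz, eval_mul, pz_eval, Finset.prod_eq_zero (Finset.mem_univ j) (sub_self _)]
    ring
  have hroots : ∀ x, (pz a z).eval x = 0 → ‖x‖ ≤ 1 := by
    intro x hx
    apply hr
    rw [hQz, eval_mul, hx, mul_zero]
  have hdd : (derivative (pz a z)).natDegree = m := by
    rw [natDegree_derivative, pz_natDegree]
    rfl
  obtain ⟨w, hw⟩ := exists_prod (derivative (pz a z)) m hdd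
  have hlc : (derivative (pz a z)).leadingCoeff = (m + 1 : ℂ) := by
    rw [leadingCoeff_derivative, (pz_monic a z).leadingCoeff, pz_natDegree]
    push_cast
    ring
  have hev : ∀ x, (derivative (pz a z)).eval x = (m + 1 : ℂ) * ∏ j, (x - w j) := by
    intro x
    rw [hw, hlc, eval_mul, eval_C, eval_prod]
    simp
  have hd0 : derivative (pz a z) ≠ 0 := by
    intro h0
    rw [h0, leadingCoeff_zero] at hlc
    exact Nat.cast_add_one_ne_zero m hlc.symm
  refine ⟨Q1.leadingCoeff, z, w, hc, hQz, hz1, fun j => ?_, hev⟩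
  have h1 : w j ∈ (derivative (pz a z)).rootSet ℂ := by
    rw [mem_rootSet, coe_aeval_eq_eval, hev]
    exact ⟨hd0, by rw [Finset.prod_eq_zero (Finset.mem_univ j) (sub_self _), mul_zero]⟩
  have h2 := rootSet_derivative_subset_convexHull_rootSet (P := pz a z) (by
    rw [degree_eq_natDegree (pz_monic a z).ne_zero, pz_natDegree]
    exact_mod_cast Nat.succ_pos m) h1
  have h3 : convexHull ℝ ((pz a z).rootSet ℂ) ⊆ Metric.closedBall (0 : ℂ) 1 := by
    refine convexHull_min ?_ (convex_closedBall _ _)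
    intro x hx
    rw [mem_rootSet, coe_aeval_eq_eval] at hx
    rw [mem_closedBall_zero_iff]
    exact hroots x hx.2
  exact mem_closedBall_zero_iff.1 (h3 h2)

theorem exists_extremal (m : ℕ) (hm : 1 ≤ m) (a : ℂ) (d0 : ℝ)
    (hA : ∃ P, InClass (m + 1) a P ∧ ∀ ζ : ℂ, P.derivative.eval ζ = 0 → d0 ≤ ‖ζ - a‖) :
    ∃ (d : ℝ) (z w : Fin m → ℂ), d0 ≤ d ∧ (∀ j, ‖z j‖ ≤ 1) ∧
      (∀ x, (derivative (pz a z)).eval x = (m + 1 : ℂ) * ∏ j, (x - w j)) ∧
      (∀ j, d ≤ ‖w j - a‖) ∧ (∃ j, ‖w j - a‖ = d) ∧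
      ∀ Q, InClass (m + 1) a Q → ∃ ξ : ℂ, Q.derivative.eval ξ = 0 ∧ ‖ξ - a‖ ≤ d := by
  classical
  have hne : (Finset.univ : Finset (Fin m)).Nonempty := ⟨⟨0, hm⟩, Finset.mem_univ _⟩
  let K : Set ((Fin m → ℂ) × (Fin m → ℂ)) :=
    (Metric.closedBall (0 : Fin m → ℂ) 1 ×ˢ Metric.closedBall (0 : Fin m → ℂ) 1) ∩
      {q | ∀ x, (derivative (pz a q.1)).eval x = (m + 1 : ℂ) * ∏ j, (x - q.2 j)}
  have hball : ∀ z : Fin m → ℂ, z ∈ Metric.closedBall (0 : Fin m → ℂ) 1 ↔ ∀ j, ‖z j‖ ≤ 1 := by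
    intro z
    rw [mem_closedBall_zero_iff, pi_norm_le_iff_of_nonneg zero_le_one]
  have hK : IsCompact K := by
    refine ((isCompact_closedBall _ _).prod (isCompact_closedBall _ _)).inter_right ?_
    rw [Set.ofPred_forall]
    refine isClosed_iInter fun x => isClosed_eq ?_ ?_
    · exact (pz_cont a x).comp continuous_fst
    · fun_prop
  let f : (Fin m → ℂ) × (Fin m → ℂ) → ℝ := fun q => Finset.univ.inf' hne fun j => ‖q.2 j - a‖
  have hf : Continuous f := by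
    refine Continuous.finset_inf'_apply hne fun j _ => ?_
    fun_prop
  have hmem : ∀ Q, InClass (m + 1) a Q → ∃ q ∈ K, ∃ c : ℂ, c ≠ 0 ∧ Q = C c * pz a q.1 := by
    intro Q hQ
    obtain ⟨c, z, w, hc, h1, h2, h3, h4⟩ := rep hQ
    exact ⟨(z, w), ⟨⟨(hball z).2 h2, (hball w).2 h3⟩, h4⟩, c, hc, h1⟩
  have hder : ∀ (q : (Fin m → ℂ) × (Fin m → ℂ)) (_ : q ∈ K) (c : ℂ) (j : Fin m),
      (derivative (C c * pz a q.1)).eval (q.2 j) = 0 := by
    intro q hq c j
    rw [derivative_C_mul, eval_mul, hq.2, Finset.prod_eq_zero (Finset.mem_univ j) (sub_self _)]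
    ring
  obtain ⟨P, hP, hP2⟩ := hA
  obtain ⟨q0, hq0, c0, hc0, hPq⟩ := hmem P hP
  obtain ⟨q, hq, hmax⟩ := hK.exists_isMaxOn ⟨q0, hq0⟩ hf.continuousOn
  have hle : ∀ q' ∈ K, f q' ≤ f q := fun q' hq' => hmax hq'
  refine ⟨f q, q.1, q.2, ?_, (hball _).1 hq.1.1, hq.2, fun j => Finset.inf'_le _ (Finset.mem_univ j),
    ?_, ?_⟩
  · refine le_trans ?_ (hle q0 hq0)
    refine Finset.le_inf' hne _ fun j _ => hP2 _ ?_
    rw [hPq]
    exact hder q0 hq0 c0 j
  · obtain ⟨j, -, hj⟩ := Finset.exists_mem_eq_inf' hne fun j => ‖q.2 j - a‖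
    exact ⟨j, hj.symm⟩
  · intro Q hQ
    obtain ⟨q', hq', c, hc, hQq⟩ := hmem Q hQ
    obtain ⟨j, -, hj⟩ := Finset.exists_mem_eq_inf' hne fun j => ‖q'.2 j - a‖
    refine ⟨q'.2 j, ?_, ?_⟩
    · rw [hQq]
      exact hder q' hq' c j
    · rw [← hj]
      exact hle q' hq'

end PR

theorem packR : PackR := by
  intro n hn a ha d0 hd0 hA hC hMain
  obtain ⟨m, rfl⟩ : ∃ m, n = m + 1 := ⟨n - 1, by omega⟩
  obtain ⟨d, z, w, hd, hz, hw, hmin, ⟨j0, hj0⟩, hQ⟩ := PR.exists_extremal m (by omega) a d0 hA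
  have hcl := PR.pz_inClass a ha z hz
  have hdpos : 0 < d := hd0.trans_le hd
  have hcrit : ∀ ζ : ℂ, (PR.pz a z).derivative.eval ζ = 0 → ∃ j, ζ = w j := by
    intro ζ hζ
    rw [hw, mul_eq_zero, Finset.prod_eq_zero_iff] at hζ
    rcases hζ with hζ | ⟨j, -, hj⟩
    · exact absurd hζ (Nat.cast_add_one_ne_zero m)
    · exact ⟨j, sub_eq_zero.1 hj⟩
  have hall := hMain (m + 1) hn a (PR.pz a z) d hcl.1 hcl.2.1 hcl.2.2
    ⟨w j0, by rw [hw, Finset.prod_eq_zero (Finset.mem_univ j0) (sub_self _), mul_zero], hj0⟩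
    (fun ζ hζ => by
      obtain ⟨j, rfl⟩ := hcrit ζ hζ
      exact hmin j)
    (fun Q h1 h2 h3 => hQ Q ⟨h1, h2, h3⟩)
  apply hC
  let s : ℂ := ((d / d0 : ℝ) : ℂ)
  have hs0 : s ≠ 0 := by
    rw [Complex.ofReal_ne_zero]
    exact (div_pos hdpos hd0).ne'
  let q : ℂ[X] := C s * (X - C a) + C a
  have hqe : ∀ x, q.eval x = s * (x - a) + a := by
    intro x
    simp [q]
  have hqd : derivative q = C s := by
    simp [q]
  have hqn : q.natDegree = 1 := by
    have h1 : q = C s * X + C (a - s * a) := by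
      simp only [q, C_sub, C_mul]
      ring
    rw [h1, natDegree_linear hs0]
  refine ⟨(PR.pz a z).comp q, ⟨?_, ?_, ?_⟩, ?_⟩
  · rw [natDegree_comp, hcl.1, hqn, mul_one]
  · rw [eval_comp, hqe, sub_self, mul_zero, zero_add]
    exact hcl.2.1
  · intro x hx
    rw [eval_comp] at hx
    have h1 := hcl.2.2 _ hx
    rw [hqe] at h1
    -- `x = (1 - t) a + t y`
    have h2 : x = ((1 - d0 / d : ℝ) : ℂ) * a + ((d0 / d : ℝ) : ℂ) * (s * (x - a) + a) := by
      have h3 : ((d0 / d : ℝ) : ℂ) * s = 1 := by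
        simp only [s]
        rw [← Complex.ofReal_mul]
        rw [div_mul_div_comm, mul_comm, div_self (mul_pos hdpos hd0).ne', Complex.ofReal_one]
      have h4 : ((d0 / d : ℝ) : ℂ) * (s * (x - a) + a) = (x - a) + ((d0 / d : ℝ) : ℂ) * a := by
        rw [mul_add, ← mul_assoc, h3, one_mul]
      rw [h4]
      push_cast
      ring
    have ht0 : 0 ≤ d0 / d := (div_pos hd0 hdpos).le
    have ht1 : d0 / d ≤ 1 := (div_le_one hdpos).2 hd
    rw [h2]
    calc _ ≤ ‖((1 - d0 / d : ℝ) : ℂ) * a‖ + ‖((d0 / d : ℝ) : ℂ) * (s * (x - a) + a)‖ :=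
          norm_add_le _ _
      _ = (1 - d0 / d) * ‖a‖ + (d0 / d) * ‖s * (x - a) + a‖ := by
          rw [norm_mul, norm_mul, Complex.norm_real, Complex.norm_real, Real.norm_of_nonneg ht0,
            Real.norm_of_nonneg (sub_nonneg.2 ht1)]
      _ ≤ (1 - d0 / d) * 1 + (d0 / d) * 1 := by
          gcongr
      _ = 1 := by ring
  · intro ζ hζ
    rw [derivative_comp, hqd, eval_mul, eval_C, eval_comp, mul_eq_zero] at hζ
    have h1 := hall _ (hζ.resolve_left hs0)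
    rw [hqe, add_sub_cancel_right, norm_mul, Complex.norm_real,
      Real.norm_of_nonneg (div_pos hdpos hd0).le] at h1
    have h2 : d / d0 ≠ 0 := (div_pos hdpos hd0).ne'
    have h3 : ‖ζ - a‖ = d / (d / d0) := by
      rw [eq_div_iff h2, mul_comm]
      exact h1
    rw [h3, div_div_cancel₀ hdpos.ne']

end Pool.Agent.T2H78.SEN
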