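import Pool.Agent.T2H78.SEN.Defs

/-!
Project SEN, package S: Schur-Cohn inequality. (helper59)
-/

set_option autoImplicit false

namespace Pool.Agent.T2H78.SEN.PS

open Polynomial

/-- the coefficient `g_{i-1}` -/
noncomputable def pc (g : ℂ[X]) (i : ℕ) : ℂ := if i = 0 then 0 else g.coeff (i - 1)

lemma coeff_X_mul' (g : ℂ[X]) (i : ℕ) : (X * g).coeff i = pc g i := by
  unfold pc
  cases i with
  | zero => simp
  | succ i => simp [coeff_X_mul]

lemma normsq_id (a b z : ℂ) :
    ‖a - (starRingEnd ℂ) z * b‖ ^ 2 - ‖b - z * a‖ ^ 2 = (1 - ‖z‖ ^ 2) * (‖a‖ ^ 2 - ‖b‖ ^ 2) := by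
  simp only [← Complex.normSq_eq_norm_sq, Complex.normSq_apply, Complex.sub_re, Complex.sub_im,
    Complex.mul_re, Complex.mul_im, Complex.conj_re, Complex.conj_im]
  ring

lemma step (n : ℕ) (z : ℂ) (g : ℂ[X]) :
    E n ((1 - C ((starRingEnd ℂ) z) * X) * g) - E n ((X - C z) * g)
      = (1 - ‖z‖ ^ 2) * ‖pc g n‖ ^ 2 := by
  induction n with
  | zero => simp [E, pc]
  | succ n ih =>
    have h1 : ((1 - C ((starRingEnd ℂ) z) * X) * g).coeff n = g.coeff n - (starRingEnd ℂ) z * pc g n := by
      rw [sub_mul, one_mul, coeff_sub, mul_assoc, coeff_C_mul, coeff_X_mul']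
    have h2 : ((X - C z) * g).coeff n = pc g n - z * g.coeff n := by
      rw [sub_mul, coeff_sub, coeff_C_mul, coeff_X_mul']
    have h3 := normsq_id (g.coeff n) (pc g n) z
    have h4 : pc g (n + 1) = g.coeff n := by simp [pc]
    unfold E at ih ⊢
    rw [Finset.sum_range_succ, Finset.sum_range_succ, h1, h2, h4]
    linarith

lemma step_le (n : ℕ) (z : ℂ) (hz : ‖z‖ ≤ 1) (g : ℂ[X]) :
    E n ((X - C z) * g) ≤ E n ((1 - C ((starRingEnd ℂ) z) * X) * g) := by
  have h := step n z g
  have h1 : 0 ≤ (1 - ‖z‖ ^ 2) * ‖pc g n‖ ^ 2 := by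
    apply mul_nonneg _ (by positivity)
    nlinarith [norm_nonneg z]
  linarith

lemma prod_le (n : ℕ) (s : Multiset ℂ) (hs : ∀ z ∈ s, ‖z‖ ≤ 1) : ∀ u : ℂ[X],
    E n ((s.map fun z => X - C z).prod * u) ≤
      E n ((s.map fun z => 1 - C ((starRingEnd ℂ) z) * X).prod * u) := by
  induction s using Multiset.induction_on with
  | empty => intro u; simp
  | cons z s ih =>
    intro u
    rw [Multiset.map_cons, Multiset.prod_cons, Multiset.map_cons, Multiset.prod_cons]
    have h1 := step_le n z (hs z (Multiset.mem_cons_self z s)) ((s.map fun z => X - C z).prod * u)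
    have h2 := ih (fun w hw => hs w (Multiset.mem_cons_of_mem hw)) ((1 - C ((starRingEnd ℂ) z) * X) * u)
    calc E n ((X - C z) * (s.map fun z => X - C z).prod * u)
        = E n ((X - C z) * ((s.map fun z => X - C z).prod * u)) := by rw [mul_assoc]
      _ ≤ E n ((1 - C ((starRingEnd ℂ) z) * X) * ((s.map fun z => X - C z).prod * u)) := h1
      _ = E n ((s.map fun z => X - C z).prod * ((1 - C ((starRingEnd ℂ) z) * X) * u)) := by
          congr 1; ring
      _ ≤ E n ((s.map fun z => 1 - C ((starRingEnd ℂ) z) * X).prod *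
            ((1 - C ((starRingEnd ℂ) z) * X) * u)) := h2
      _ = _ := by congr 1; ring

lemma E_C_mul (n : ℕ) (c : ℂ) (g : ℂ[X]) : E n (C c * g) = ‖c‖ ^ 2 * E n g := by
  unfold E
  rw [Finset.mul_sum]
  refine Finset.sum_congr rfl fun i _ => ?_
  rw [coeff_C_mul, norm_mul, mul_pow]

lemma reverse_X_sub (w : ℂ) : (X - C w : ℂ[X]).reverse = 1 - C w * X := by
  rw [reverse, natDegree_X_sub_C]
  ext i
  rw [coeff_reflect]
  rcases i with _ | _ | i
  · simp [revAt_le]
  · simp [revAt_le, coeff_one]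
  · rw [revAt_eq_self_of_lt (by omega)]
    simp [coeff_X, coeff_one]

lemma star_eq (n : ℕ) (p : ℂ[X]) (hp : p.natDegree = n) :
    star n p = (p.map (starRingEnd ℂ)).reverse := by
  have hd : (p.map (starRingEnd ℂ)).natDegree = n := by
    rw [natDegree_map_eq_of_injective (starRingEnd ℂ).injective, hp]
  ext i
  rw [reverse, hd, coeff_reflect, coeff_map]
  unfold star
  rw [finsetSum_coeff]
  simp only [coeff_C_mul, coeff_X_pow, mul_ite, mul_one, mul_zero]
  rw [Finset.sum_ite_eq]
  by_cases hi : i ≤ n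
  · rw [if_pos (by simpa [Nat.lt_succ_iff] using hi), revAt_le hi]
  · rw [if_neg (by simpa [Nat.lt_succ_iff] using hi), revAt_eq_self_of_lt (by omega),
      coeff_eq_zero_of_natDegree_lt (by omega), map_zero]

lemma reverse_prod (s : Multiset ℂ) :
    ((s.map fun z => X - C ((starRingEnd ℂ) z)).prod : ℂ[X]).reverse
      = (s.map fun z => 1 - C ((starRingEnd ℂ) z) * X).prod := by
  induction s using Multiset.induction_on with
  | empty => simp [reverse]
  | cons z s ih =>
    rw [Multiset.map_cons, Multiset.prod_cons, Multiset.map_cons, Multiset.prod_cons,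
      reverse_mul_of_domain, ih, reverse_X_sub]

theorem packS : PackS := by
  intro n p hn hp hz u
  have hsp : p = C p.leadingCoeff * (p.roots.map fun z => X - C z).prod :=
    (IsAlgClosed.splits p).eq_prod_roots
  have hstar : star n p = C ((starRingEnd ℂ) p.leadingCoeff) *
      (p.roots.map fun z => 1 - C ((starRingEnd ℂ) z) * X).prod := by
    rw [star_eq n p hn]
    conv_lhs => rw [hsp]
    rw [Polynomial.map_mul, map_C, Polynomial.map_multiset_prod, Multiset.map_map,
      reverse_mul_of_domain]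
    have h1 : (Multiset.map ((Polynomial.map (starRingEnd ℂ)) ∘ fun z => X - C z) p.roots)
        = (p.roots.map fun z => X - C ((starRingEnd ℂ) z)) := by
      refine Multiset.map_congr rfl fun z _ => ?_
      simp
    rw [h1, reverse_prod]
    simp [reverse]
  have h := prod_le n p.roots (fun z h => hz z ((mem_roots hp).1 h)) u
  calc E n (p * u) = E n (C p.leadingCoeff * ((p.roots.map fun z => X - C z).prod * u)) := by
        rw [← mul_assoc, ← hsp]
    _ = ‖p.leadingCoeff‖ ^ 2 * E n ((p.roots.map fun z => X - C z).prod * u) := E_C_mul _ _ _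
    _ ≤ ‖p.leadingCoeff‖ ^ 2 * E n ((p.roots.map fun z => 1 - C ((starRingEnd ℂ) z) * X).prod * u) := by
        apply mul_le_mul_of_nonneg_left h (by positivity)
    _ = E n (star n p * u) := by
        rw [hstar, mul_assoc, E_C_mul, RCLike.norm_conj]

end Pool.Agent.T2H78.SEN.PS

namespace Pool.Agent.T2H78.SEN

theorem packS : PackS := PS.packS

end Pool.Agent.T2H78.SEN
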