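import Pool.Agent.T2H78.SEN.PackR

/-!
Package Y of project SEN (MP_951270_an): Cayley coordinates.
-/

set_option autoImplicit false

namespace Pool.Agent.T2H78.SEN

open Polynomial

namespace PY

theorem cayley (ζ : ℂ) (h1 : ‖ζ - 16 / 25‖ = 32 / 35) (h2 : ‖ζ‖ ≤ 1) :
    ∃ y : ℝ, y ^ 2 ≤ 708025 / 693744 ∧ (875 - 700 * Complex.I * y : ℂ) ≠ 0 ∧
      ∀ z : ℂ, (875 * z + 240) + (y : ℂ) * (Complex.I * (1088 - 700 * z)) =
        (875 - 700 * Complex.I * y) * (z - ζ) := by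
  obtain ⟨u, v⟩ := ζ
  have e1 : (u - 16 / 25) ^ 2 + v ^ 2 = (32 / 35) ^ 2 := by
    rw [← h1, ← Complex.normSq_eq_norm_sq, Complex.normSq_apply]
    simp
    ring
  have e2 : u ^ 2 + v ^ 2 ≤ 1 := by
    have h3 : ‖(⟨u, v⟩ : ℂ)‖ ^ 2 ≤ 1 := by
      have := norm_nonneg (⟨u, v⟩ : ℂ)
      nlinarith
    rw [← Complex.normSq_eq_norm_sq, Complex.normSq_apply] at h3
    nlinarith
  have e3 : u ≤ 25 / 32 * (1 - 1024 / 1225 + 256 / 625) := by nlinarith
  have e4 : 0 < 1088 - 700 * u := by nlinarith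
  have key : ∀ y : ℝ, (875 - 700 * Complex.I * y : ℂ) ≠ 0 := by
    intro y h
    have h3 := congrArg Complex.re h
    simp at h3
  refine ⟨-875 * v / (1088 - 700 * u), ?_, key _, ?_⟩
  · rw [div_pow, div_le_iff₀ (by positivity)]
    nlinarith [mul_nonneg e4.le (sub_nonneg.2 e3)]
  · set y : ℝ := -875 * v / (1088 - 700 * u) with hy
    have hy1 : y * (1088 - 700 * u) = -875 * v := by
      rw [hy, div_mul_cancel₀ _ e4.ne']
    have hy2 : 875 * u + 240 + 700 * (y * v) = 0 := by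
      apply mul_right_cancel₀ e4.ne'
      have : (875 * u + 240 + 700 * (y * v)) * (1088 - 700 * u) =
        (875 * u + 240) * (1088 - 700 * u) + 700 * v * (y * (1088 - 700 * u)) := by ring
      rw [this, hy1]
      nlinarith
    intro z
    apply Complex.ext
    · simp
      nlinarith
    · simp
      nlinarith

end PY

theorem packY : PackY := by
  intro P hP hcrit
  obtain ⟨c, z, w, hc, hPz, -, hw1, hw⟩ := PR.rep (m := 9) hP
  have hev : ∀ x, P.derivative.eval x = c * ((((9 : ℕ) : ℂ) + 1) * ∏ j, (x - w j)) := by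
    intro x
    rw [hPz, derivative_C_mul, eval_mul, eval_C, hw]
  have hd : ∀ j, ‖w j - 16 / 25‖ = 32 / 35 := by
    intro j
    apply hcrit
    rw [hev, Finset.prod_eq_zero (Finset.mem_univ j) (sub_self _)]
    ring
  choose y hy1 hy2 hy3 using fun j => PY.cayley (w j) (hd j) (hw1 j)
  have hpr : ∏ j, (875 - 700 * Complex.I * (y j : ℂ)) ≠ 0 := Finset.prod_ne_zero_iff.2 fun j _ => hy2 j
  have h10 : (((9 : ℕ) : ℂ) + 1) ≠ 0 := Nat.cast_add_one_ne_zero 9
  refine ⟨y, hy1, c * (((9 : ℕ) : ℂ) + 1) / ∏ j, (875 - 700 * Complex.I * (y j : ℂ)),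
    div_ne_zero (mul_ne_zero hc h10) hpr, fun x => ?_⟩
  rw [hev, Finset.prod_congr rfl fun j _ => hy3 j x, Finset.prod_mul_distrib]
  rw [eq_comm, div_mul_eq_mul_div, div_eq_iff hpr]
  ring

end Pool.Agent.T2H78.SEN
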