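import Pool.Agent.T2H78.SEN.Tab

/-!
Project SEN: meaning of the Bezout part of the checker.
-/

set_option autoImplicit false

namespace Pool.Agent.T2H78.SEN

open Polynomial

theorem qev_b2 (w : ℤ) (u0 u1 u2 u3 u4 u5 u6 u7 u8 : ℤ) (s0 s1 s2 s3 s4 s5 s6 s7 s8 s9 : ℝ) (q : QF)
    (A D : ℤ → ℝ)
    (hA : ∀ t, A t = ∑ j ∈ Finset.range 9, (([u0, u1, u2, u3, u4, u5, u6, u7, u8].getD j 0 : ℤ) : ℝ) *
      (if 0 ≤ (j : ℤ) + t then [s0, s1, s2, s3, s4, s5, s6, s7, s8, s9].getD ((j : ℤ) + t).toNat 0 else 0))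
    (hD : ∀ t, D t = ∑ j ∈ Finset.range 9, (([u0, u1, u2, u3, u4, u5, u6, u7, u8].getD j 0 : ℤ) : ℝ) *
      ((((j : ℤ) + t : ℤ) + 1 : ℝ) * (if 0 ≤ (j : ℤ) + t + 1 then [s0, s1, s2, s3, s4, s5, s6, s7, s8, s9].getD ((j : ℤ) + t + 1).toNat 0 else 0))) :
    qev (b2 w [u0, u1, u2, u3, u4, u5, u6, u7, u8] q) [s0, s1, s2, s3, s4, s5, s6, s7, s8, s9] =
    qev q [s0, s1, s2, s3, s4, s5, s6, s7, s8, s9] + w * 693744 *
      (∑ l ∈ Finset.range 9, (A (l + 1) * (708025 / 693744 * D (-l) - D (-l - 2))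
      - D (l + 1) * (708025 / 693744 * A (-l) - A (-l - 2)))
    - 9 * (A 0) ^ 2 + A 0 * D (-1) + A (-1) * D 0) := by
  have am10 : A (-10) = lev ([]) [s0, s1, s2, s3, s4, s5, s6, s7, s8, s9] := by
    rw [hA]; simp [Finset.sum_range_succ, lev, -mul_eq_zero, -zero_eq_mul] <;> ring
  have am9 : A (-9) = lev ([]) [s0, s1, s2, s3, s4, s5, s6, s7, s8, s9] := by
    rw [hA]; simp [Finset.sum_range_succ, lev, -mul_eq_zero, -zero_eq_mul] <;> ring
  have am8 : A (-8) = lev ([u8]) [s0, s1, s2, s3, s4, s5, s6, s7, s8, s9] := by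
    rw [hA]; simp [Finset.sum_range_succ, lev, -mul_eq_zero, -zero_eq_mul] <;> ring
  have am7 : A (-7) = lev ([u7, u8]) [s0, s1, s2, s3, s4, s5, s6, s7, s8, s9] := by
    rw [hA]; simp [Finset.sum_range_succ, lev, -mul_eq_zero, -zero_eq_mul] <;> ring
  have am6 : A (-6) = lev ([u6, u7, u8]) [s0, s1, s2, s3, s4, s5, s6, s7, s8, s9] := by
    rw [hA]; simp [Finset.sum_range_succ, lev, -mul_eq_zero, -zero_eq_mul] <;> ring
  have am5 : A (-5) = lev ([u5, u6, u7, u8]) [s0, s1, s2, s3, s4, s5, s6, s7, s8, s9] := by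
    rw [hA]; simp [Finset.sum_range_succ, lev, -mul_eq_zero, -zero_eq_mul] <;> ring
  have am4 : A (-4) = lev ([u4, u5, u6, u7, u8]) [s0, s1, s2, s3, s4, s5, s6, s7, s8, s9] := by
    rw [hA]; simp [Finset.sum_range_succ, lev, -mul_eq_zero, -zero_eq_mul] <;> ring
  have am3 : A (-3) = lev ([u3, u4, u5, u6, u7, u8]) [s0, s1, s2, s3, s4, s5, s6, s7, s8, s9] := by
    rw [hA]; simp [Finset.sum_range_succ, lev, -mul_eq_zero, -zero_eq_mul] <;> ring
  have am2 : A (-2) = lev ([u2, u3, u4, u5, u6, u7, u8]) [s0, s1, s2, s3, s4, s5, s6, s7, s8, s9] := by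
    rw [hA]; simp [Finset.sum_range_succ, lev, -mul_eq_zero, -zero_eq_mul] <;> ring
  have am1 : A (-1) = lev ([u1, u2, u3, u4, u5, u6, u7, u8]) [s0, s1, s2, s3, s4, s5, s6, s7, s8, s9] := by
    rw [hA]; simp [Finset.sum_range_succ, lev, -mul_eq_zero, -zero_eq_mul] <;> ring
  have ap0 : A (0) = lev ([u0, u1, u2, u3, u4, u5, u6, u7, u8]) [s0, s1, s2, s3, s4, s5, s6, s7, s8, s9] := by
    rw [hA]; simp [Finset.sum_range_succ, lev, -mul_eq_zero, -zero_eq_mul] <;> ring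
  have ap1 : A (1) = lev ([0, u0, u1, u2, u3, u4, u5, u6, u7, u8]) [s0, s1, s2, s3, s4, s5, s6, s7, s8, s9] := by
    rw [hA]; simp [Finset.sum_range_succ, lev, -mul_eq_zero, -zero_eq_mul] <;> ring
  have ap2 : A (2) = lev ([0, 0, u0, u1, u2, u3, u4, u5, u6, u7]) [s0, s1, s2, s3, s4, s5, s6, s7, s8, s9] := by
    rw [hA]; simp [Finset.sum_range_succ, lev, -mul_eq_zero, -zero_eq_mul] <;> ring
  have ap3 : A (3) = lev ([0, 0, 0, u0, u1, u2, u3, u4, u5, u6]) [s0, s1, s2, s3, s4, s5, s6, s7, s8, s9] := by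
    rw [hA]; simp [Finset.sum_range_succ, lev, -mul_eq_zero, -zero_eq_mul] <;> ring
  have ap4 : A (4) = lev ([0, 0, 0, 0, u0, u1, u2, u3, u4, u5]) [s0, s1, s2, s3, s4, s5, s6, s7, s8, s9] := by
    rw [hA]; simp [Finset.sum_range_succ, lev, -mul_eq_zero, -zero_eq_mul] <;> ring
  have ap5 : A (5) = lev ([0, 0, 0, 0, 0, u0, u1, u2, u3, u4]) [s0, s1, s2, s3, s4, s5, s6, s7, s8, s9] := by
    rw [hA]; simp [Finset.sum_range_succ, lev, -mul_eq_zero, -zero_eq_mul] <;> ring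
  have ap6 : A (6) = lev ([0, 0, 0, 0, 0, 0, u0, u1, u2, u3]) [s0, s1, s2, s3, s4, s5, s6, s7, s8, s9] := by
    rw [hA]; simp [Finset.sum_range_succ, lev, -mul_eq_zero, -zero_eq_mul] <;> ring
  have ap7 : A (7) = lev ([0, 0, 0, 0, 0, 0, 0, u0, u1, u2]) [s0, s1, s2, s3, s4, s5, s6, s7, s8, s9] := by
    rw [hA]; simp [Finset.sum_range_succ, lev, -mul_eq_zero, -zero_eq_mul] <;> ring
  have ap8 : A (8) = lev ([0, 0, 0, 0, 0, 0, 0, 0, u0, u1]) [s0, s1, s2, s3, s4, s5, s6, s7, s8, s9] := by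
    rw [hA]; simp [Finset.sum_range_succ, lev, -mul_eq_zero, -zero_eq_mul] <;> ring
  have ap9 : A (9) = lev ([0, 0, 0, 0, 0, 0, 0, 0, 0, u0]) [s0, s1, s2, s3, s4, s5, s6, s7, s8, s9] := by
    rw [hA]; simp [Finset.sum_range_succ, lev, -mul_eq_zero, -zero_eq_mul] <;> ring
  have dm10 : D (-10) = lev (midx 0 []) [s0, s1, s2, s3, s4, s5, s6, s7, s8, s9] := by
    rw [hD]; simp [Finset.sum_range_succ, lev, midx, -mul_eq_zero, -zero_eq_mul] <;> ring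
  have dm9 : D (-9) = lev (midx 0 [u8]) [s0, s1, s2, s3, s4, s5, s6, s7, s8, s9] := by
    rw [hD]; simp [Finset.sum_range_succ, lev, midx, -mul_eq_zero, -zero_eq_mul] <;> ring
  have dm8 : D (-8) = lev (midx 0 [u7, u8]) [s0, s1, s2, s3, s4, s5, s6, s7, s8, s9] := by
    rw [hD]; simp [Finset.sum_range_succ, lev, midx, -mul_eq_zero, -zero_eq_mul] <;> ring
  have dm7 : D (-7) = lev (midx 0 [u6, u7, u8]) [s0, s1, s2, s3, s4, s5, s6, s7, s8, s9] := by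
    rw [hD]; simp [Finset.sum_range_succ, lev, midx, -mul_eq_zero, -zero_eq_mul] <;> ring
  have dm6 : D (-6) = lev (midx 0 [u5, u6, u7, u8]) [s0, s1, s2, s3, s4, s5, s6, s7, s8, s9] := by
    rw [hD]; simp [Finset.sum_range_succ, lev, midx, -mul_eq_zero, -zero_eq_mul] <;> ring
  have dm5 : D (-5) = lev (midx 0 [u4, u5, u6, u7, u8]) [s0, s1, s2, s3, s4, s5, s6, s7, s8, s9] := by
    rw [hD]; simp [Finset.sum_range_succ, lev, midx, -mul_eq_zero, -zero_eq_mul] <;> ring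
  have dm4 : D (-4) = lev (midx 0 [u3, u4, u5, u6, u7, u8]) [s0, s1, s2, s3, s4, s5, s6, s7, s8, s9] := by
    rw [hD]; simp [Finset.sum_range_succ, lev, midx, -mul_eq_zero, -zero_eq_mul] <;> ring
  have dm3 : D (-3) = lev (midx 0 [u2, u3, u4, u5, u6, u7, u8]) [s0, s1, s2, s3, s4, s5, s6, s7, s8, s9] := by
    rw [hD]; simp [Finset.sum_range_succ, lev, midx, -mul_eq_zero, -zero_eq_mul] <;> ring
  have dm2 : D (-2) = lev (midx 0 [u1, u2, u3, u4, u5, u6, u7, u8]) [s0, s1, s2, s3, s4, s5, s6, s7, s8, s9] := by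
    rw [hD]; simp [Finset.sum_range_succ, lev, midx, -mul_eq_zero, -zero_eq_mul] <;> ring
  have dm1 : D (-1) = lev (midx 0 [u0, u1, u2, u3, u4, u5, u6, u7, u8]) [s0, s1, s2, s3, s4, s5, s6, s7, s8, s9] := by
    rw [hD]; simp [Finset.sum_range_succ, lev, midx, -mul_eq_zero, -zero_eq_mul] <;> ring
  have dp0 : D (0) = lev (midx 0 [0, u0, u1, u2, u3, u4, u5, u6, u7, u8]) [s0, s1, s2, s3, s4, s5, s6, s7, s8, s9] := by
    rw [hD]; simp [Finset.sum_range_succ, lev, midx, -mul_eq_zero, -zero_eq_mul] <;> ring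
  have dp1 : D (1) = lev (midx 0 [0, 0, u0, u1, u2, u3, u4, u5, u6, u7]) [s0, s1, s2, s3, s4, s5, s6, s7, s8, s9] := by
    rw [hD]; simp [Finset.sum_range_succ, lev, midx, -mul_eq_zero, -zero_eq_mul] <;> ring
  have dp2 : D (2) = lev (midx 0 [0, 0, 0, u0, u1, u2, u3, u4, u5, u6]) [s0, s1, s2, s3, s4, s5, s6, s7, s8, s9] := by
    rw [hD]; simp [Finset.sum_range_succ, lev, midx, -mul_eq_zero, -zero_eq_mul] <;> ring
  have dp3 : D (3) = lev (midx 0 [0, 0, 0, 0, u0, u1, u2, u3, u4, u5]) [s0, s1, s2, s3, s4, s5, s6, s7, s8, s9] := by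
    rw [hD]; simp [Finset.sum_range_succ, lev, midx, -mul_eq_zero, -zero_eq_mul] <;> ring
  have dp4 : D (4) = lev (midx 0 [0, 0, 0, 0, 0, u0, u1, u2, u3, u4]) [s0, s1, s2, s3, s4, s5, s6, s7, s8, s9] := by
    rw [hD]; simp [Finset.sum_range_succ, lev, midx, -mul_eq_zero, -zero_eq_mul] <;> ring
  have dp5 : D (5) = lev (midx 0 [0, 0, 0, 0, 0, 0, u0, u1, u2, u3]) [s0, s1, s2, s3, s4, s5, s6, s7, s8, s9] := by
    rw [hD]; simp [Finset.sum_range_succ, lev, midx, -mul_eq_zero, -zero_eq_mul] <;> ring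
  have dp6 : D (6) = lev (midx 0 [0, 0, 0, 0, 0, 0, 0, u0, u1, u2]) [s0, s1, s2, s3, s4, s5, s6, s7, s8, s9] := by
    rw [hD]; simp [Finset.sum_range_succ, lev, midx, -mul_eq_zero, -zero_eq_mul] <;> ring
  have dp7 : D (7) = lev (midx 0 [0, 0, 0, 0, 0, 0, 0, 0, u0, u1]) [s0, s1, s2, s3, s4, s5, s6, s7, s8, s9] := by
    rw [hD]; simp [Finset.sum_range_succ, lev, midx, -mul_eq_zero, -zero_eq_mul] <;> ring
  have dp8 : D (8) = lev (midx 0 [0, 0, 0, 0, 0, 0, 0, 0, 0, u0]) [s0, s1, s2, s3, s4, s5, s6, s7, s8, s9] := by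
    rw [hD]; simp [Finset.sum_range_succ, lev, midx, -mul_eq_zero, -zero_eq_mul] <;> ring
  have dp9 : D (9) = lev (midx 0 [0, 0, 0, 0, 0, 0, 0, 0, 0, 0]) [s0, s1, s2, s3, s4, s5, s6, s7, s8, s9] := by
    rw [hD]; simp [Finset.sum_range_succ, lev, midx, -mul_eq_zero, -zero_eq_mul] <;> ring
  have hs : (∑ l ∈ Finset.range 9, (A ((l : ℤ) + 1) * (708025 / 693744 * D (-(l : ℤ)) - D (-(l : ℤ) - 2))
      - D ((l : ℤ) + 1) * (708025 / 693744 * A (-(l : ℤ)) - A (-(l : ℤ) - 2)))) =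
      (A (1) * (708025 / 693744 * D (0) - D (-2)) - D (1) * (708025 / 693744 * A (0) - A (-2))) + (A (2) * (708025 / 693744 * D (-1) - D (-3)) - D (2) * (708025 / 693744 * A (-1) - A (-3))) + (A (3) * (708025 / 693744 * D (-2) - D (-4)) - D (3) * (708025 / 693744 * A (-2) - A (-4))) + (A (4) * (708025 / 693744 * D (-3) - D (-5)) - D (4) * (708025 / 693744 * A (-3) - A (-5))) + (A (5) * (708025 / 693744 * D (-4) - D (-6)) - D (5) * (708025 / 693744 * A (-4) - A (-6))) + (A (6) * (708025 / 693744 * D (-5) - D (-7)) - D (6) * (708025 / 693744 * A (-5) - A (-7))) + (A (7) * (708025 / 693744 * D (-6) - D (-8)) - D (7) * (708025 / 693744 * A (-6) - A (-8))) + (A (8) * (708025 / 693744 * D (-7) - D (-9)) - D (8) * (708025 / 693744 * A (-7) - A (-9))) + (A (9) * (708025 / 693744 * D (-8) - D (-10)) - D (9) * (708025 / 693744 * A (-8) - A (-10))) := by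
    simp only [Finset.sum_range_succ, Finset.sum_range_zero]
    norm_num
  rw [hs]
  simp only [b2, b2go, qev_addpr, qev_addsq, lev_lco, List.tail, List.take]
  rw [am10, am9, am8, am7, am6, am5, am4, am3, am2, am1, ap0, ap1, ap2, ap3, ap4, ap5, ap6, ap7, ap8, ap9, dm10, dm9, dm8, dm7, dm6, dm5, dm4, dm3, dm2, dm1, dp0, dp1, dp2, dp3, dp4, dp5, dp6, dp7, dp8, dp9]
  push_cast
  ring

end Pool.Agent.T2H78.SEN
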