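import Pool.Agent.T2H78.SEN.Sb
import Pool.Agent.T2H78.SEN.PackB
import Pool.Agent.T2H78.SEN.PackS

/-!
Project SEN: soundness of the cell check.
-/

set_option autoImplicit false

namespace Pool.Agent.T2H78.SEN

open Polynomial

/-- coefficients of `∏ (X + y_j)` -/
noncomputable def sc (y : Fin 9 → ℝ) (k : ℕ) : ℝ := (∏ j, (X + C (y j)) : ℝ[X]).coeff k

/-- list of the coefficients -/
noncomputable def sl (y : Fin 9 → ℝ) : List ℝ :=
  [sc y 0, sc y 1, sc y 2, sc y 3, sc y 4, sc y 5, sc y 6, sc y 7, sc y 8, sc y 9]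

theorem natDegree_prod (y : Fin 9 → ℝ) : (∏ j, (X + C (y j)) : ℝ[X]).natDegree = 9 := by
  rw [natDegree_prod_of_monic _ _ fun j _ => monic_X_add_C (y j)]
  simp

theorem sc_nine (y : Fin 9 → ℝ) : sc y 9 = 1 := by
  have h : (∏ j, (X + C (y j)) : ℝ[X]).Monic := monic_prod_of_monic _ _ fun j _ => monic_X_add_C (y j)
  have := h.coeff_natDegree
  rwa [natDegree_prod] at this

theorem sc_big (y : Fin 9 → ℝ) (k : ℕ) (hk : 10 ≤ k) : sc y k = 0 := by
  refine coeff_eq_zero_of_natDegree_lt ?_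
  rw [natDegree_prod]
  omega

theorem sl_getD (y : Fin 9 → ℝ) (k : ℕ) : (sl y).getD k 0 = sc y k := by
  by_cases hk : k < 10
  · interval_cases k <;> rfl
  · rw [sc_big y k (by omega)]
    rw [List.getD_eq_default]
    simp [sl]
    omega

/-- the Bezout form is nonnegative -/
theorem b2_sound (y : Fin 9 → ℝ) (hy : ∀ j, (y j) ^ 2 ≤ 708025 / 693744) (u : List ℤ) (hu : u.length = 9) :
    ∃ K : ℝ, 0 ≤ K ∧ ∀ (w : ℤ) (q : QF), qev (b2 w u q) (sl y) = qev q (sl y) + w * K := by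
  obtain ⟨u0, u1, u2, u3, u4, u5, u6, u7, u8, rfl⟩ : ∃ u0 u1 u2 u3 u4 u5 u6 u7 u8 : ℤ,
      u = [u0, u1, u2, u3, u4, u5, u6, u7, u8] := by
    match u, hu with
    | [u0, u1, u2, u3, u4, u5, u6, u7, u8], _ => exact ⟨u0, u1, u2, u3, u4, u5, u6, u7, u8, rfl⟩
  let A : ℤ → ℝ := fun t => ∑ j ∈ Finset.range 9, (([u0, u1, u2, u3, u4, u5, u6, u7, u8].getD j 0 : ℤ) : ℝ) *
      (if 0 ≤ (j : ℤ) + t then (sl y).getD ((j : ℤ) + t).toNat 0 else 0)
  let D : ℤ → ℝ := fun t => ∑ j ∈ Finset.range 9, (([u0, u1, u2, u3, u4, u5, u6, u7, u8].getD j 0 : ℤ) : ℝ) *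
      ((((j : ℤ) + t : ℤ) + 1 : ℝ) * (if 0 ≤ (j : ℤ) + t + 1 then (sl y).getD ((j : ℤ) + t + 1).toNat 0 else 0))
  let sf : ℤ → ℝ := fun m => if 0 ≤ m then (∏ j, (X + C (y j)) : ℝ[X]).coeff m.toNat else 0
  let df : ℤ → ℝ := fun m => (m + 1) * sf (m + 1)
  let uf : ℕ → ℝ := fun j => (([u0, u1, u2, u3, u4, u5, u6, u7, u8].getD j 0 : ℤ) : ℝ)
  let AA : (ℤ → ℝ) → ℤ → ℝ := fun f t => ∑ j ∈ Finset.range 9, uf j * f (j + t)
  have hB := packB y (708025 / 693744) hy uf sf df AA (fun m => rfl) (fun m => rfl) (fun f t => rfl)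
  have hA : ∀ t, AA sf t = A t := by
    intro t
    refine Finset.sum_congr rfl fun j _ => ?_
    show uf j * sf (j + t) = _
    congr 1
    show (if 0 ≤ (j : ℤ) + t then _ else _) = _
    split_ifs with h
    · rw [sl_getD]; rfl
    · rfl
  have hD : ∀ t, AA df t = D t := by
    intro t
    refine Finset.sum_congr rfl fun j _ => ?_
    show uf j * df (j + t) = _
    congr 1
    show ((((j : ℤ) + t : ℤ) : ℝ) + 1) * (if 0 ≤ (j : ℤ) + t + 1 then _ else _) = _
    congr 1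
    split_ifs with h
    · rw [sl_getD]; rfl
    · rfl
  simp only [hA, hD] at hB
  refine ⟨693744 * _, mul_nonneg (by norm_num) hB, fun w q => ?_⟩
  have := qev_b2 w u0 u1 u2 u3 u4 u5 u6 u7 u8 (sc y 0) (sc y 1) (sc y 2) (sc y 3) (sc y 4) (sc y 5)
    (sc y 6) (sc y 7) (sc y 8) (sc y 9) q A D (fun t => rfl) (fun t => rfl)
  rw [← mul_assoc]
  exact this

/-- the polynomial whose roots must lie in the unit disc -/
noncomputable def pp (y : Fin 9 → ℝ) : ℂ[X] := pev2 PT (sl y)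

/-- the parameters of a polynomial with all critical points on the circle -/
structure Good (y : Fin 9 → ℝ) : Prop where
  bd : ∀ j, (y j) ^ 2 ≤ 708025 / 693744
  sch : ∀ u : ℂ[X], E 9 (pev2 PT (sl y) * u) ≤ E 9 (pev2 GT (sl y) * u)

theorem sqP_le (s : List ℝ) (cs : List (List ℤ)) (q : QF) : qev (sqP cs q) s ≤ qev q s := by
  induction cs generalizing q with
  | nil => exact le_rfl
  | cons c cs ih =>
    simp only [sqP]
    refine (ih _).trans ?_
    rw [qev_addsq]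
    have : (0 : ℝ) ≤ (wC : ℝ) := by norm_num [wC]
    push_cast
    nlinarith [mul_nonneg this (sq_nonneg (lev c s))]

theorem scP_le {y : Fin 9 → ℝ} (hy : Good y) (vs : List (List (ℤ × ℤ))) (q : QF) :
    qev (scP vs q) (sl y) ≤ qev q (sl y) := by
  induction vs generalizing q with
  | nil => exact le_rfl
  | cons v vs ih =>
    simp only [scP]
    refine (ih _).trans ?_
    rw [qev_sc, qev_sc]
    have := hy.sch (uev v)
    push_cast
    linarith

theorem b2P_le {y : Fin 9 → ℝ} (hy : Good y) (us : List (List ℤ)) (hl : len9 us = true) (q : QF) :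
    qev (b2P us q) (sl y) ≤ qev q (sl y) := by
  induction us generalizing q with
  | nil => exact le_rfl
  | cons u us ih =>
    simp only [len9, Bool.and_eq_true, beq_iff_eq] at hl
    simp only [b2P]
    refine (ih hl.2 _).trans ?_
    obtain ⟨K, hK, h⟩ := b2_sound y hy.bd u hl.1
    rw [h]
    have : (0 : ℝ) ≤ (wU : ℝ) := by norm_num [wU]
    push_cast
    nlinarith [mul_nonneg this hK]

theorem cell_sound (c : Cert) (a b p r : ℤ) (h : cellOK c a b p r = true) (y : Fin 9 → ℝ) (hy : Good y)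
    (h1 : (a : ℝ) ≤ 4096 * sc y 8) (h2 : 4096 * sc y 8 ≤ b) (h3 : (p : ℝ) ≤ 4096 * sc y 7)
    (h4 : 4096 * sc y 7 ≤ r) : False := by
  simp only [cellOK, Bool.and_eq_true, decide_eq_true_eq, beq_iff_eq] at h
  obtain ⟨⟨⟨⟨hal, hbe⟩, hl⟩, hlen⟩, hdd⟩ := h
  have hd := dd_sound _ _ (sl y) hdd (by rw [hlen]; rfl)
  have hle : qev (nq c a b p r) (sl y) ≤ 0 := by
    unfold nq
    refine (sqP_le _ _ _).trans ((scP_le hy _ _).trans ((b2P_le hy _ hl _).trans ?_))
    rw [qev_addpr, qev_addpr]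
    have e1 : lev [0, 0, 0, 0, 0, 0, 0, 0, 4096, -a] (sl y) = 4096 * sc y 8 - a := by
      simp [lev, sl, sc_nine]; ring
    have e2 : lev [0, 0, 0, 0, 0, 0, 0, 0, -4096, b] (sl y) = b - 4096 * sc y 8 := by
      simp [lev, sl, sc_nine]; ring
    have e3 : lev [0, 0, 0, 0, 0, 0, 0, 4096, 0, -p] (sl y) = 4096 * sc y 7 - p := by
      simp [lev, sl, sc_nine]; ring
    have e4 : lev [0, 0, 0, 0, 0, 0, 0, -4096, 0, r] (sl y) = r - 4096 * sc y 7 := by
      simp [lev, sl, sc_nine]; ring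
    rw [e1, e2, e3, e4]
    have f1 : (0 : ℝ) ≤ c.al := by exact_mod_cast hal
    have f2 : (0 : ℝ) ≤ c.be := by exact_mod_cast hbe
    have g1 : 0 ≤ (c.al : ℝ) * ((4096 * sc y 8 - a) * (b - 4096 * sc y 8)) :=
      mul_nonneg f1 (mul_nonneg (by linarith) (by linarith))
    have g2 : 0 ≤ (c.be : ℝ) * ((4096 * sc y 7 - p) * (r - 4096 * sc y 7)) :=
      mul_nonneg f2 (mul_nonneg (by linarith) (by linarith))
    simp only [qev]
    push_cast
    linarith
  have hs : (1 : ℝ) ≤ ((sl y).map (· ^ 2)).sum := by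
    simp only [sl, List.map_cons, List.map_nil, List.sum_cons, List.sum_nil, sc_nine]
    have := sq_nonneg (sc y 0)
    have := sq_nonneg (sc y 1)
    have := sq_nonneg (sc y 2)
    have := sq_nonneg (sc y 3)
    have := sq_nonneg (sc y 4)
    have := sq_nonneg (sc y 5)
    have := sq_nonneg (sc y 6)
    have := sq_nonneg (sc y 7)
    have := sq_nonneg (sc y 8)
    linarith
  simp only [lev] at hd
  linarith

/-- no good `y` has its two leading coefficients in the rectangle (in units `1/4096`) -/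
def Region (a b p r : ℤ) : Prop := ∀ y : Fin 9 → ℝ, Good y →
  (a : ℝ) ≤ 4096 * sc y 8 → 4096 * sc y 8 ≤ b → (p : ℝ) ≤ 4096 * sc y 7 → 4096 * sc y 7 ≤ r → False

theorem region_leaf (c : Cert) {a b p r : ℤ} (h : cellOK c a b p r = true) : Region a b p r :=
  fun y hy h1 h2 h3 h4 => cell_sound c a b p r h y hy h1 h2 h3 h4

theorem region_s (x : ℤ) {a b p r : ℤ} (h1 : Region a x p r) (h2 : Region x b p r) : Region a b p r := by
  intro y hy g1 g2 g3 g4
  rcases le_total (4096 * sc y 8) x with h | h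
  · exact h1 y hy g1 h g3 g4
  · exact h2 y hy h g2 g3 g4

theorem region_t (x : ℤ) {a b p r : ℤ} (h1 : Region a b p x) (h2 : Region a b x r) : Region a b p r := by
  intro y hy g1 g2 g3 g4
  rcases le_total (4096 * sc y 7) x with h | h
  · exact h1 y hy g1 g2 g3 h
  · exact h2 y hy g1 g2 h g4

end Pool.Agent.T2H78.SEN
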