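import Pool.Agent.T2H78.SEN.Sound
import Pool.Agent.T2H78.SEN.PackY

/-!
Project SEN: the polynomial `pp y`.
-/

set_option autoImplicit false

namespace Pool.Agent.T2H78.SEN

open Polynomial

noncomputable def g0 : ℂ[X] := C (46461565967500821850270728192 : ℂ) + C (-227819481152212991145620275200 : ℂ) * X + C (513801716605700316824862720000 : ℂ) * X ^ 2 + C (-689436678426689286438912000000 : ℂ) * X ^ 3 + C (602910088178236076851200000000 : ℂ) * X ^ 4 + C (-355131401288370094080000000000 : ℂ) * X ^ 5 + C (140591935675957248000000000000 : ℂ) * X ^ 6 + C (-36018023369932800000000000000 : ℂ) * X ^ 7 + C (5412456362880000000000000000 : ℂ) * X ^ 8 + C (-363182463000000000000000000 : ℂ) * X ^ 9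

theorem g0_d : derivative ((C 25 * X - C 16) * g0) =
    C (2250) * (C 875 * X + C 240) ^ 0 * (C 1088 - C 700 * X) ^ 9 := by
  refine Polynomial.funext fun z => ?_
  simp only [g0, derivative_mul, derivative_add, derivative_sub, derivative_C, derivative_X, eval_add, eval_sub, eval_mul, eval_C, eval_X, eval_pow, eval_one, eval_zero, derivative_pow]
  norm_num
  ring

noncomputable def g1 : ℂ[X] := C (17575716365649273331394805760 : ℂ) + C (-38806107438180295409401856000 : ℂ) * X + C (-10892814184720177194598400000 : ℂ) * X ^ 2 + C (141470780026736229744640000000 : ℂ) * X ^ 3 + C (-231934844453796184064000000000 : ℂ) * X ^ 4 + C (199288537122183577600000000000 : ℂ) * X ^ 5 + C (-103402402280898560000000000000 : ℂ) * X ^ 6 + C (32710231945216000000000000000 : ℂ) * X ^ 7 + C (-5843202293600000000000000000 : ℂ) * X ^ 8 + C (453978078750000000000000000 : ℂ) * X ^ 9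

theorem g1_d : derivative ((C 25 * X - C 16) * g1) =
    C (2250) * (C 875 * X + C 240) ^ 1 * (C 1088 - C 700 * X) ^ 8 := by
  refine Polynomial.funext fun z => ?_
  simp only [g1, derivative_mul, derivative_add, derivative_sub, derivative_C, derivative_X, eval_add, eval_sub, eval_mul, eval_C, eval_X, eval_pow, eval_one, eval_zero, derivative_pow]
  norm_num
  ring

noncomputable def g2 : ℂ[X] := C (-7880105048530727272762572800 : ℂ) + C (2305313271856169148743680000 : ℂ) * X + C (23979440840321743716352000000 : ℂ) * X ^ 2 + C (-15422153829708411699200000000 : ℂ) * X ^ 3 + C (-45292841078966190080000000000 : ℂ) * X ^ 4 + C (85860114848284672000000000000 : ℂ) * X ^ 5 + C (-66804838355763200000000000000 : ℂ) * X ^ 6 + C (27869222187520000000000000000 : ℂ) * X ^ 7 + C (-6151042667000000000000000000 : ℂ) * X ^ 8 + C (567472598437500000000000000 : ℂ) * X ^ 9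

theorem g2_d : derivative ((C 25 * X - C 16) * g2) =
    C (-2250) * (C 875 * X + C 240) ^ 2 * (C 1088 - C 700 * X) ^ 7 := by
  refine Polynomial.funext fun z => ?_
  simp only [g2, derivative_mul, derivative_add, derivative_sub, derivative_C, derivative_X, eval_add, eval_sub, eval_mul, eval_C, eval_X, eval_pow, eval_one, eval_zero, derivative_pow]
  norm_num
  ring

noncomputable def g3 : ℂ[X] := C (-4291223845478118859997184000 : ℂ) + C (-3480483418077480458649600000 : ℂ) * X + C (5972160363165709762560000000 : ℂ) * X ^ 2 + C (13484132545251508224000000000 : ℂ) * X ^ 3 + C (-13504503068649062400000000000 : ℂ) * X ^ 4 + C (-17982130466979840000000000000 : ℂ) * X ^ 5 + C (34217275029504000000000000000 : ℂ) * X ^ 6 + C (-21528072854400000000000000000 : ℂ) * X ^ 7 + C (6247603083750000000000000000 : ℂ) * X ^ 8 + C (-709340748046875000000000000 : ℂ) * X ^ 9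

theorem g3_d : derivative ((C 25 * X - C 16) * g3) =
    C (-2250) * (C 875 * X + C 240) ^ 3 * (C 1088 - C 700 * X) ^ 6 := by
  refine Polynomial.funext fun z => ?_
  simp only [g3, derivative_mul, derivative_add, derivative_sub, derivative_C, derivative_X, eval_add, eval_sub, eval_mul, eval_C, eval_X, eval_pow, eval_one, eval_zero, derivative_pow]
  norm_num
  ring

noncomputable def g4 : ℂ[X] := C (2817841552594170302955520000 : ℂ) + C (3691578784645579276288000000 : ℂ) * X + C (1725631742002541363200000000 : ℂ) * X ^ 2 + C (-6071337247016222720000000000 : ℂ) * X ^ 3 + C (-8595419997667328000000000000 : ℂ) * X ^ 4 + C (8584297497395200000000000000 : ℂ) * X ^ 5 + C (9380252922880000000000000000 : ℂ) * X ^ 6 + C (-13980465968000000000000000000 : ℂ) * X ^ 7 + C (6008003542187500000000000000 : ℂ) * X ^ 8 + C (-886675935058593750000000000 : ℂ) * X ^ 9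

theorem g4_d : derivative ((C 25 * X - C 16) * g4) =
    C (2250) * (C 875 * X + C 240) ^ 4 * (C 1088 - C 700 * X) ^ 5 := by
  refine Polynomial.funext fun z => ?_
  simp only [g4, derivative_mul, derivative_add, derivative_sub, derivative_C, derivative_X, eval_add, eval_sub, eval_mul, eval_C, eval_X, eval_pow, eval_one, eval_zero, derivative_pow]
  norm_num
  ring

noncomputable def g5 : ℂ[X] := C (2157418897575819975065600000 : ℂ) + C (3214062915414539632640000000 : ℂ) * X + C (3793756374324740096000000000 : ℂ) * X ^ 2 + C (1299525149288038400000000000 : ℂ) * X ^ 3 + C (-5294607839395840000000000000 : ℂ) * X ^ 4 + C (-6613651846144000000000000000 : ℂ) * X ^ 5 + C (4420160326400000000000000000 : ℂ) * X ^ 6 + C (5945980460000000000000000000 : ℂ) * X ^ 7 + C (-5258129037109375000000000000 : ℂ) * X ^ 8 + C (1108344918823242187500000000 : ℂ) * X ^ 9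

theorem g5_d : derivative ((C 25 * X - C 16) * g5) =
    C (2250) * (C 875 * X + C 240) ^ 5 * (C 1088 - C 700 * X) ^ 4 := by
  refine Polynomial.funext fun z => ?_
  simp only [g5, derivative_mul, derivative_add, derivative_sub, derivative_C, derivative_X, eval_add, eval_sub, eval_mul, eval_C, eval_X, eval_pow, eval_one, eval_zero, derivative_pow]
  norm_num
  ring

noncomputable def g6 : ℂ[X] := C (-1849769033187320659968000000 : ℂ) + C (-2855652913168200499200000000 : ℂ) * X + C (-4116800017929338880000000000 : ℂ) * X ^ 2 + C (-4605012845002752000000000000 : ℂ) * X ^ 3 + C (-1906061040844800000000000000 : ℂ) * X ^ 4 + C (4091055064320000000000000000 : ℂ) * X ^ 5 + C (5815961508000000000000000000 : ℂ) * X ^ 6 + C (-1188990206250000000000000000 : ℂ) * X ^ 7 + C (-3757817058105468750000000000 : ℂ) * X ^ 8 + C (1385431148529052734375000000 : ℂ) * X ^ 9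

theorem g6_d : derivative ((C 25 * X - C 16) * g6) =
    C (-2250) * (C 875 * X + C 240) ^ 6 * (C 1088 - C 700 * X) ^ 3 := by
  refine Polynomial.funext fun z => ?_
  simp only [g6, derivative_mul, derivative_add, derivative_sub, derivative_C, derivative_X, eval_add, eval_sub, eval_mul, eval_C, eval_X, eval_pow, eval_one, eval_zero, derivative_pow]
  norm_num
  ring

noncomputable def g7 : ℂ[X] := C (-1717714706551055319040000000 : ℂ) + C (-2676294405194776576000000000 : ℂ) * X + C (-4089198586259046400000000000 : ℂ) * X ^ 2 + C (-5761513518530560000000000000 : ℂ) * X ^ 3 + C (-6430361426944000000000000000 : ℂ) * X ^ 4 + C (-3761191470400000000000000000 : ℂ) * X ^ 5 + C (2104152365000000000000000000 : ℂ) * X ^ 6 + C (5024899085937500000000000000 : ℂ) * X ^ 7 + C (1178716024780273437500000000 : ℂ) * X ^ 8 + C (-1731788935661315917968750000 : ℂ) * X ^ 9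

theorem g7_d : derivative ((C 25 * X - C 16) * g7) =
    C (-2250) * (C 875 * X + C 240) ^ 7 * (C 1088 - C 700 * X) ^ 2 := by
  refine Polynomial.funext fun z => ?_
  simp only [g7, derivative_mul, derivative_add, derivative_sub, derivative_C, derivative_X, eval_add, eval_sub, eval_mul, eval_C, eval_X, eval_pow, eval_one, eval_zero, derivative_pow]
  norm_num
  ring

noncomputable def g8 : ℂ[X] := C (1687256348262347571200000000 : ℂ) + C (2634653891853025280000000000 : ℂ) * X + C (4092627928481792000000000000 : ℂ) * X ^ 2 + C (6196330417356800000000000000 : ℂ) * X ^ 3 + C (8639970456320000000000000000 : ℂ) * X ^ 4 + C (9922281362000000000000000000 : ℂ) * X ^ 5 + C (7611890300000000000000000000 : ℂ) * X ^ 6 + C (1656736894531250000000000000 : ℂ) * X ^ 7 + C (-2924799091339111328125000000 : ℂ) * X ^ 8 + C (-2164736169576644897460937500 : ℂ) * X ^ 9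

theorem g8_d : derivative ((C 25 * X - C 16) * g8) =
    C (2250) * (C 875 * X + C 240) ^ 8 * (C 1088 - C 700 * X) ^ 1 := by
  refine Polynomial.funext fun z => ?_
  simp only [g8, derivative_mul, derivative_add, derivative_sub, derivative_C, derivative_X, eval_add, eval_sub, eval_mul, eval_C, eval_X, eval_pow, eval_one, eval_zero, derivative_pow]
  norm_num
  ring

noncomputable def g9 : ℂ[X] := C (1725646313028059136000000000 : ℂ) + C (2695950859920998400000000000 : ℂ) * X + C (4206328228085760000000000000 : ℂ) * X ^ 2 + C (6513131003904000000000000000 : ℂ) * X ^ 3 + C (9798696129600000000000000000 : ℂ) * X ^ 4 + C (13656401797500000000000000000 : ℂ) * X ^ 5 + C (16312769156250000000000000000 : ℂ) * X ^ 6 + C (15019204614257812500000000000 : ℂ) * X ^ 7 + C (9153741517066955566406250000 : ℂ) * X ^ 8 + C (2705920211970806121826171875 : ℂ) * X ^ 9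

theorem g9_d : derivative ((C 25 * X - C 16) * g9) =
    C (2250) * (C 875 * X + C 240) ^ 9 * (C 1088 - C 700 * X) ^ 0 := by
  refine Polynomial.funext fun z => ?_
  simp only [g9, derivative_mul, derivative_add, derivative_sub, derivative_C, derivative_X, eval_add, eval_sub, eval_mul, eval_C, eval_X, eval_pow, eval_one, eval_zero, derivative_pow]
  norm_num
  ring

end Pool.Agent.T2H78.SEN
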