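import Pool.Agent.T2H78.SEN.Th0

/-!
Project SEN: from a polynomial with all critical points on the circle to good parameters.
-/

set_option autoImplicit false

namespace Pool.Agent.T2H78.SEN

open Polynomial

/-- homogenisation -/
theorem prod_homog (y : Fin 9 → ℝ) (α β : ℂ) :
    ∏ j, (α + (y j : ℂ) * β) = ∑ k ∈ Finset.range 10, (sc y k : ℂ) * α ^ k * β ^ (9 - k) := by
  have hmap : (∏ j, (X + C ((y j : ℝ) : ℂ)) : ℂ[X]) = (∏ j, (X + C (y j)) : ℝ[X]).map (algebraMap ℝ ℂ) := by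
    rw [Polynomial.map_prod]
    refine Finset.prod_congr rfl fun j _ => ?_
    simp
  have hev : ∀ w : ℂ, ∏ j, (w + (y j : ℂ)) = ∑ k ∈ Finset.range 10, (sc y k : ℂ) * w ^ k := by
    intro w
    have h1 : (∏ j, (X + C ((y j : ℝ) : ℂ)) : ℂ[X]).eval w = ∏ j, (w + (y j : ℂ)) := by
      rw [eval_prod]
      refine Finset.prod_congr rfl fun j _ => ?_
      simp
    rw [← h1, hmap, eval_eq_sum_range' (n := 10)]
    · refine Finset.sum_congr rfl fun k _ => ?_
      rw [coeff_map]
      rfl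
    · rw [natDegree_map_eq_of_injective (algebraMap ℝ ℂ).injective, natDegree_prod]
      norm_num
  by_cases hβ : β = 0
  · subst hβ
    rw [Finset.sum_eq_single 9]
    · simp [sc_nine]
    · intro k hk hk9
      have : 9 - k ≠ 0 := by
        have := Finset.mem_range.mp hk
        omega
      rw [zero_pow this, mul_zero]
    · intro h
      exact absurd (Finset.mem_range.mpr (by norm_num)) h
  · have h1 : ∏ j, (α + (y j : ℂ) * β) = β ^ 9 * ∏ j, (α / β + (y j : ℂ)) := by
      have h2 : β ^ 9 = ∏ _j : Fin 9, β := by simp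
      rw [h2, ← Finset.prod_mul_distrib]
      refine Finset.prod_congr rfl fun j _ => ?_
      field_simp
    rw [h1, hev, Finset.mul_sum]
    refine Finset.sum_congr rfl fun k hk => ?_
    have hk' : k ≤ 9 := by
      have := Finset.mem_range.mp hk
      omega
    have h3 : β ^ 9 = β ^ k * β ^ (9 - k) := by
      rw [← pow_add]
      congr 1
      omega
    rw [h3, div_pow]
    field_simp

/-- `pp y` by columns -/
theorem pp_cols (y : Fin 9 → ℝ) : pp y =
    C (Complex.I * (sc y 0 : ℂ)) * g0 + C ((sc y 1 : ℂ)) * g1 + C (Complex.I * (sc y 2 : ℂ)) * g2 +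
    C ((sc y 3 : ℂ)) * g3 + C (Complex.I * (sc y 4 : ℂ)) * g4 + C ((sc y 5 : ℂ)) * g5 +
    C (Complex.I * (sc y 6 : ℂ)) * g6 + C ((sc y 7 : ℂ)) * g7 + C (Complex.I * (sc y 8 : ℂ)) * g8 +
    C ((sc y 9 : ℂ)) * g9 := by
  refine Polynomial.funext fun z => ?_
  simp only [pp, PT, pev2, cev2, alt, lev, sl, g0, g1, g2, g3, g4, g5, g6, g7, g8, g9, eval_add, eval_mul,
    eval_C, eval_X, eval_pow, eval_zero]
  push_cast
  ring

/-- the derivative of `(25 X - 16) pp y` -/
theorem pp_deriv (y : Fin 9 → ℝ) (z : ℂ) : (derivative ((C 25 * X - C 16) * pp y)).eval z =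
    2250 * ∏ j, ((875 * z + 240) + (y j : ℂ) * (Complex.I * (1088 - 700 * z))) := by
  have hd : derivative ((C 25 * X - C 16) * pp y) =
      C (Complex.I * (sc y 0 : ℂ)) * derivative ((C 25 * X - C 16) * g0) +
      C ((sc y 1 : ℂ)) * derivative ((C 25 * X - C 16) * g1) +
      C (Complex.I * (sc y 2 : ℂ)) * derivative ((C 25 * X - C 16) * g2) +
      C ((sc y 3 : ℂ)) * derivative ((C 25 * X - C 16) * g3) +
      C (Complex.I * (sc y 4 : ℂ)) * derivative ((C 25 * X - C 16) * g4) +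
      C ((sc y 5 : ℂ)) * derivative ((C 25 * X - C 16) * g5) +
      C (Complex.I * (sc y 6 : ℂ)) * derivative ((C 25 * X - C 16) * g6) +
      C ((sc y 7 : ℂ)) * derivative ((C 25 * X - C 16) * g7) +
      C (Complex.I * (sc y 8 : ℂ)) * derivative ((C 25 * X - C 16) * g8) +
      C ((sc y 9 : ℂ)) * derivative ((C 25 * X - C 16) * g9) := by
    rw [pp_cols]
    simp only [mul_add, derivative_add]
    simp only [← derivative_C_mul]
    refine congrArg₂ _ (congrArg₂ _ (congrArg₂ _ (congrArg₂ _ (congrArg₂ _ (congrArg₂ _ (congrArg₂ _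
      (congrArg₂ _ (congrArg₂ _ ?_ ?_) ?_) ?_) ?_) ?_) ?_) ?_) ?_) ?_ <;>
    · congr 1
      ring
  rw [hd, g0_d, g1_d, g2_d, g3_d, g4_d, g5_d, g6_d, g7_d, g8_d, g9_d, prod_homog]
  simp only [Finset.sum_range_succ, Finset.sum_range_zero, eval_add, eval_sub, eval_mul, eval_C, eval_X,
    eval_pow]
  have i2 : Complex.I ^ 2 = -1 := Complex.I_sq
  have i3 : Complex.I ^ 3 = -Complex.I := by rw [pow_succ, i2]; ring
  have i4 : Complex.I ^ 4 = 1 := Complex.I_pow_four
  have i5 : Complex.I ^ 5 = Complex.I := by rw [pow_succ, i4]; ring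
  have i6 : Complex.I ^ 6 = -1 := by rw [pow_succ, i5, ← sq, i2]
  have i7 : Complex.I ^ 7 = -Complex.I := by rw [pow_succ, i6]; ring
  have i8 : Complex.I ^ 8 = 1 := by rw [pow_succ, i7, neg_mul, ← sq, i2]; ring
  have i9 : Complex.I ^ 9 = Complex.I := by rw [pow_succ, i8]; ring
  simp only [mul_pow, Nat.sub_zero, Nat.reduceSub, i2, i3, i4, i5, i6, i7, i8, i9, pow_zero, pow_one]
  ring

end Pool.Agent.T2H78.SEN
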