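import Pool.Agent.T2H78.SEN.Th1
import Pool.Agent.T2H78.SEN.Cover

/-!
Project SEN: no polynomial of degree 10 in the class has all its critical points on the circle.
-/

set_option autoImplicit false

namespace Pool.Agent.T2H78.SEN

open Polynomial

theorem pev2_coeff (F : List (List ℤ)) (s : List ℝ) (i : ℕ) :
    (pev2 F s).coeff i = cev2 (F.getD i []) s := by
  induction F generalizing i with
  | nil => simp [pev2, cev2, alt, lev]
  | cons P F ih =>
    cases i with
    | zero => simp [pev2]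
    | succ i => simp [pev2, ih, coeff_C_succ, coeff_X_mul]

theorem alt_alt (a b c d : ℤ) (L : List ℤ) : alt a b (alt c d L) = alt (a * c) (b * d) L := by
  induction L generalizing a b c d with
  | nil => rfl
  | cons x L ih => simp [alt, ih, mul_assoc]

theorem cev2_conj (P : List ℤ) (s : List ℝ) : cev2 (alt (-1) 1 P) s = (starRingEnd ℂ) (cev2 P s) := by
  unfold cev2
  rw [alt_alt, alt_alt, lev_alt (0 * -1) (1 * 1), lev_alt (1 * -1) (0 * 1)]
  simp only [map_add, map_mul, Complex.conj_ofReal, Complex.conj_I]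
  push_cast
  ring

theorem star_pp (s : List ℝ) : star 9 (pev2 PT s) = pev2 GT s := by
  have hG : GT = (PT.map (alt (-1) 1)).reverse := by decide +kernel
  ext i
  rw [pev2_coeff]
  unfold star
  simp only [finsetSum_coeff, coeff_C_mul, coeff_X_pow, mul_ite, mul_one, mul_zero, pev2_coeff]
  rw [Finset.sum_ite_eq]
  by_cases hi : i < 10
  · rw [if_pos (Finset.mem_range.mpr hi), ← cev2_conj]
    have : alt (-1) 1 (PT.getD (9 - i) []) = GT.getD i [] := by
      rw [hG]
      interval_cases i <;> decide +kernel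
    rw [this]
  · rw [if_neg (by simpa using hi)]
    rw [List.getD_eq_default _ _ (by simp [GT]; omega)]
    simp [cev2, alt, lev]

theorem lev_nil (a : List ℤ) : lev a [] = 0 := by
  cases a <;> rfl

/-- negation of the even entries -/
theorem lev_flip (y : Fin 9 → ℝ) (k : ℕ) (hk : k ≤ 9) :
    sc (fun j => -y j) k = (-1) ^ (9 - k) * sc y k := by
  have h : (∏ j, (X + C (-y j)) : ℝ[X]) = -((∏ j, (X + C (y j)) : ℝ[X]).comp (C (-1) * X)) := by
    rw [prod_comp]
    have : ∀ j, (X + C (y j) : ℝ[X]).comp (C (-1) * X) = C (-1) * (X + C (-y j)) := by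
      intro j
      simp
      ring
    simp only [this]
    rw [Finset.prod_mul_distrib, Finset.prod_const, Finset.card_univ, Fintype.card_fin, ← C_pow]
    norm_num
  unfold sc
  rw [h, coeff_neg, comp_C_mul_X_coeff]
  have h9 : (-1 : ℝ) ^ (9 - k) = -(-1) ^ k := by
    interval_cases k <;> norm_num
  rw [h9]
  ring

theorem sl_neg (y : Fin 9 → ℝ) : sl (fun j => -y j) =
    [-sc y 0, sc y 1, -sc y 2, sc y 3, -sc y 4, sc y 5, -sc y 6, sc y 7, -sc y 8, sc y 9] := by
  unfold sl
  rw [lev_flip y 0 (by norm_num), lev_flip y 1 (by norm_num), lev_flip y 2 (by norm_num),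
    lev_flip y 3 (by norm_num), lev_flip y 4 (by norm_num), lev_flip y 5 (by norm_num),
    lev_flip y 6 (by norm_num), lev_flip y 7 (by norm_num), lev_flip y 8 (by norm_num),
    lev_flip y 9 (by norm_num)]
  norm_num

theorem cev2_neg (P : List ℤ) (s0 s1 s2 s3 s4 s5 s6 s7 s8 s9 : ℝ) :
    cev2 P [-s0, s1, -s2, s3, -s4, s5, -s6, s7, -s8, s9] =
      (starRingEnd ℂ) (cev2 P [s0, s1, s2, s3, s4, s5, s6, s7, s8, s9]) := by
  have h1 : lev (alt 0 1 P) [-s0, s1, -s2, s3, -s4, s5, -s6, s7, -s8, s9] =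
      lev (alt 0 1 P) [s0, s1, s2, s3, s4, s5, s6, s7, s8, s9] := by
    rcases P with _ | ⟨p0, _ | ⟨p1, _ | ⟨p2, _ | ⟨p3, _ | ⟨p4, _ | ⟨p5, _ | ⟨p6, _ | ⟨p7, _ | ⟨p8, _ | ⟨p9, P⟩⟩⟩⟩⟩⟩⟩⟩⟩⟩ <;>
      simp [alt, lev]
  have h2 : lev (alt 1 0 P) [-s0, s1, -s2, s3, -s4, s5, -s6, s7, -s8, s9] =
      -lev (alt 1 0 P) [s0, s1, s2, s3, s4, s5, s6, s7, s8, s9] := by
    rcases P with _ | ⟨p0, _ | ⟨p1, _ | ⟨p2, _ | ⟨p3, _ | ⟨p4, _ | ⟨p5, _ | ⟨p6, _ | ⟨p7, _ | ⟨p8, _ | ⟨p9, P⟩⟩⟩⟩⟩⟩⟩⟩⟩⟩ <;>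
      simp [alt, lev, lev_nil] <;> ring
  unfold cev2
  rw [h1, h2]
  simp only [map_add, map_mul, Complex.conj_ofReal, Complex.conj_I]
  push_cast
  ring

theorem pp_neg (y : Fin 9 → ℝ) : pp (fun j => -y j) = (pp y).map (starRingEnd ℂ) := by
  have key : ∀ F : List (List ℤ),
      pev2 F (sl fun j => -y j) = (pev2 F (sl y)).map (starRingEnd ℂ) := by
    intro F
    induction F with
    | nil => simp [pev2]
    | cons P F ih =>
      simp only [pev2, Polynomial.map_add, Polynomial.map_mul, map_C, map_X]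
      rw [ih, sl_neg, cev2_neg P]
      rfl
  exact key PT

/-- the roots of `pp y` lie in the unit disc -/
def Loc (y : Fin 9 → ℝ) : Prop := ∀ z : ℂ, (pp y).eval z = 0 → ‖z‖ ≤ 1

theorem loc_neg {y : Fin 9 → ℝ} (h : Loc y) : Loc fun j => -y j := by
  intro z hz
  rw [pp_neg] at hz
  have h1 : (pp y).eval ((starRingEnd ℂ) z) = 0 := by
    have h2 : ((pp y).map (starRingEnd ℂ)).eval z =
        (starRingEnd ℂ) ((pp y).eval ((starRingEnd ℂ) z)) := by
      rw [Polynomial.eval_map, ← Polynomial.eval₂_id, Polynomial.hom_eval₂]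
      simp
    rw [h2] at hz
    simpa using hz
  have := h _ h1
  rwa [RCLike.norm_conj] at this

theorem pp_ne {y : Fin 9 → ℝ} : (pp y).natDegree = 9 ∧ pp y ≠ 0 := by
  have hQ : ∀ z : ℂ, (derivative ((C 25 * X - C 16) * pp y)).eval z =
      ((C 2250) * ∏ j, (C (875 - 700 * Complex.I * (y j : ℂ)) * X + C (240 + 1088 * Complex.I * (y j : ℂ))) : ℂ[X]).eval z := by
    intro z
    rw [pp_deriv, eval_mul, eval_prod, eval_C]
    congr 1
    refine Finset.prod_congr rfl fun j _ => ?_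
    simp
    ring
  have hQ' := Polynomial.funext hQ
  have hne : ∀ j, (875 - 700 * Complex.I * (y j : ℂ)) ≠ 0 := by
    intro j h
    have := congrArg Complex.re h
    simp at this
  have hdeg : ((C 2250) * ∏ j, (C (875 - 700 * Complex.I * (y j : ℂ)) * X + C (240 + 1088 * Complex.I * (y j : ℂ))) : ℂ[X]).natDegree = 9 := by
    rw [natDegree_C_mul (by norm_num), Polynomial.natDegree_prod _ _ fun j _ => ?_]
    · rw [Finset.sum_congr rfl fun j _ => natDegree_linear (hne j)]
      simp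
    · intro h
      have := congrArg natDegree h
      rw [natDegree_linear (hne j)] at this
      simp at this
  have hp : pp y ≠ 0 := by
    intro h
    rw [h, mul_zero, derivative_zero] at hQ'
    rw [← hQ'] at hdeg
    simp at hdeg
  refine ⟨?_, hp⟩
  have hlin : (C 25 * X - C 16 : ℂ[X]).natDegree = 1 := by
    rw [sub_eq_add_neg, ← C_neg]
    exact natDegree_linear (by norm_num)
  have hlin0 : (C 25 * X - C 16 : ℂ[X]) ≠ 0 := by
    intro h
    rw [h] at hlin
    simp at hlin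
  have h1 : ((C 25 * X - C 16) * pp y).natDegree = 1 + (pp y).natDegree := by
    rw [natDegree_mul hlin0 hp, hlin]
  have h2 := natDegree_derivative ((C 25 * X - C 16) * pp y)
  rw [hQ', hdeg, h1] at h2
  omega

end Pool.Agent.T2H78.SEN
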